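import Pool.Agent.Lib.MP_dd9902_an.P1a

/-!
# Row dd-P1b : resampling one coordinate of a product measure; finite uniform measures

`measurePreserving_update`: measurability of the map by `measurable_pi_iff`/`Measurable.update'`-like lemmas; the image measure `ν` satisfies
`ν (Set.pi s t) = ∏ i ∈ s, μ i (t i)` for all finite `s` and measurable `t` (the preimage of the box is a product set:
`{m | ∀ l ∈ s \ {i}, m l ∈ t l} ×ˢ t i` resp. `... ×ˢ univ`), so `ν = infinitePi μ` by `eq_infinitePi`.
`integral_muM_update`: `∫ F dμ = ∫ F(update m i a) d(μ ⊗ unif)` (`MeasurePreserving.integral_comp'` or `integral_map`), Fubini (`integral_prod_symm` etc.) and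
`∫ G d(unif n) = (n+1)⁻¹ ∑ a, G a` (`ProbabilityTheory.uniformOn`, `integral_fintype`, each singleton has measure `1/(n+1)`).
`F` has finite... `F` depends on the first `N` coordinates only, so it is measurable (row P4 has the same lemma: here it is proved for `F` given measurable and bounded).
`coin_half`: the same for `coin`: with `F = indicator (A ∩ {S | S j = b})`; `update S j b' ∈ A ↔ S ∈ A`, so
`coin (A ∩ {S j = b}) = ∫∫ 1_A(S) 1[b' = b] = coin A * (1/2)`.
-/

set_option autoImplicit false

open scoped BigOperators Topology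
open Set Filter MeasureTheory

namespace Pool.Agent.DD

theorem integral_unif (n : ℕ) (G : Fin (n + 1) → ℝ) :
    ∫ a, G a ∂(unif n) = ((n : ℝ) + 1)⁻¹ * ∑ a, G a := by
  have hsing : ∀ a : Fin (n + 1), (unif n).real {a} = ((n : ℝ) + 1)⁻¹ := by
    intro a
    unfold unif
    rw [Measure.real, ProbabilityTheory.uniformOn_univ]
    simp [ENNReal.toReal_inv]
    rw [ENNReal.toReal_add (by simp) (by simp)]
    simp
  rw [integral_fintype (by exact Integrable.of_finite)]
  rw [Finset.mul_sum]
  refine Finset.sum_congr rfl (fun a _ => ?_)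
  rw [hsing a, smul_eq_mul]

theorem integral_muM_update (n : ℕ → ℕ) (i : ℕ) {F : ((i : ℕ) → Fin (n i + 1)) → ℝ} (hF : Measurable F)
    {B : ℝ} (hB : ∀ m, |F m| ≤ B) :
    ∫ m, F m ∂(muM n) =
      ((n i : ℝ) + 1)⁻¹ * ∑ a : Fin (n i + 1), ∫ m, F (Function.update m i a) ∂(muM n) := by
  have hmp := measurePreserving_update (fun i => unif (n i)) i
  have hint : Integrable F (muM n) :=
    Integrable.of_bound hF.aestronglyMeasurable B (Eventually.of_forall (fun m => by simpa using hB m))
  have hmp' : MeasurePreserving (fun p : ((i : ℕ) → Fin (n i + 1)) × Fin (n i + 1) => Function.update p.1 i p.2)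
      ((muM n).prod (unif (n i))) (muM n) := hmp
  have h1 : ∫ m, F m ∂(muM n) = ∫ p, F (Function.update p.1 i p.2) ∂((muM n).prod (unif (n i))) := by
    rw [← hmp'.map_eq] 
    rw [integral_map hmp'.measurable.aemeasurable]
    · rw [hmp'.map_eq]
    · rw [hmp'.map_eq]; exact hF.aestronglyMeasurable
  rw [h1]
  have hint2 : Integrable (fun p : ((i : ℕ) → Fin (n i + 1)) × Fin (n i + 1) => F (Function.update p.1 i p.2))
      ((muM n).prod (unif (n i))) := hmp'.integrable_comp_of_integrable hint
  rw [integral_prod_symm _ hint2]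
  rw [integral_unif]

end Pool.Agent.DD
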