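import Pool.Agent.Lib.MP_dd9902_an.Defs

/-!
# Row dd-P4 : functions of finitely many coordinates are measurable

`F` factors through the measurable restriction map to `(i : Fin N) → E i` (or `(i : Finset.range N) → E i`), a finite type with measurable
singletons, on which every function is measurable (`Measurable.of_discrete`/`measurable_of_finite`).
For the factor: choose a default point `d i : E i` (`E i` is nonempty) and write `F x = F (fun i => if i < N then x i else d i)`.
-/

set_option autoImplicit false

open scoped BigOperators Topology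
open Set Filter MeasureTheory

namespace Pool.Agent.DD

theorem measurable_of_prefix {E : ℕ → Type*} [∀ i, Finite (E i)] [∀ i, Nonempty (E i)]
    [∀ i, MeasurableSpace (E i)] [∀ i, MeasurableSingletonClass (E i)] {β : Type*} [MeasurableSpace β]
    (F : ((i : ℕ) → E i) → β) (N : ℕ) (h : ∀ x y, (∀ i < N, x i = y i) → F x = F y) : Measurable F := by
  classical
  let d : (i : ℕ) → E i := fun i => Classical.arbitrary (E i)
  let π : ((i : ℕ) → E i) → ((i : Fin N) → E i) := fun x i => x i
  let G : ((i : Fin N) → E i) → β := fun z => F (fun i => if hi : i < N then z ⟨i, hi⟩ else d i)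
  have hπ : Measurable π := measurable_pi_lambda _ fun i => measurable_pi_apply (i : ℕ)
  have hG : Measurable G := measurable_of_finite G
  have hF : F = G ∘ π := by
    funext x
    refine h x _ fun i hi => ?_
    simp [π, hi]
  rw [hF]
  exact hG.comp hπ

theorem measurable_of_prefix₂ {E E' : ℕ → Type*} [∀ i, Finite (E i)] [∀ i, Nonempty (E i)]
    [∀ i, MeasurableSpace (E i)] [∀ i, MeasurableSingletonClass (E i)]
    [∀ i, Finite (E' i)] [∀ i, Nonempty (E' i)]
    [∀ i, MeasurableSpace (E' i)] [∀ i, MeasurableSingletonClass (E' i)] {β : Type*} [MeasurableSpace β]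
    (F : ((i : ℕ) → E i) × ((i : ℕ) → E' i) → β) (N : ℕ)
    (h : ∀ x y, (∀ i < N, x.1 i = y.1 i) → (∀ i < N, x.2 i = y.2 i) → F x = F y) : Measurable F := by
  classical
  let d : (i : ℕ) → E i := fun i => Classical.arbitrary (E i)
  let d' : (i : ℕ) → E' i := fun i => Classical.arbitrary (E' i)
  let π : ((i : ℕ) → E i) × ((i : ℕ) → E' i) → ((i : Fin N) → E i) × ((i : Fin N) → E' i) :=
    fun x => (fun i => x.1 i, fun i => x.2 i)
  let G : ((i : Fin N) → E i) × ((i : Fin N) → E' i) → β := fun z =>
    F (fun i => if hi : i < N then z.1 ⟨i, hi⟩ else d i, fun i => if hi : i < N then z.2 ⟨i, hi⟩ else d' i)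
  have hπ : Measurable π := by
    refine Measurable.prodMk (measurable_pi_lambda _ fun i => ?_) (measurable_pi_lambda _ fun i => ?_)
    · exact (measurable_pi_apply (i : ℕ)).comp measurable_fst
    · exact (measurable_pi_apply (i : ℕ)).comp measurable_snd
  have hG : Measurable G := measurable_of_finite G
  have hF : F = G ∘ π := by
    funext x
    refine h x _ (fun i hi => ?_) (fun i hi => ?_)
    · simp [π, hi]
    · simp [π, hi]
  rw [hF]
  exact hG.comp hπ

theorem measurableSet_of_prefix {E : ℕ → Type*} [∀ i, Finite (E i)] [∀ i, Nonempty (E i)]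
    [∀ i, MeasurableSpace (E i)] [∀ i, MeasurableSingletonClass (E i)]
    (V : Set ((i : ℕ) → E i)) (N : ℕ) (h : ∀ x y, (∀ i < N, x i = y i) → (x ∈ V ↔ y ∈ V)) :
    MeasurableSet V := by
  have h1 : Measurable (fun x : (i : ℕ) → E i => x ∈ V) :=
    measurable_of_prefix (fun x : (i : ℕ) → E i => x ∈ V) N fun x y hxy => propext (h x y hxy)
  exact measurableSet_setOfPred.2 h1

end Pool.Agent.DD
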