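import Pool.Agent.Lib.MP_dd9902_an.T1a
import Pool.Agent.Lib.MP_dd9902_an.P1b
import Pool.Agent.Lib.MP_dd9902_an.P4

/-!
# Row dd-A1a : the averages (v), (vi) of section 3

`avg_comp`: induction on `i`.  `i = 0`: the integrand is the constant `t g`.  `i + 1`, `S i = false`: `comp (i+1) t = comp i t` and `t ∈ A i`.
`S i = true`: by `integral_muM_update n i` (the integrand depends on the coordinates `< i + 1`, measurable by `measurable_of_prefix`, bounded by `1`)
`∫ comp (i+1) t g = (n i + 1)⁻¹ ∑_a ∫ comp i (ψ i a t) g` (after the update at `i` the letter at `i` is `a`, and `comp i` does not see the coordinate `i`: `comp_congr`);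
by induction each summand is within `∑_{l<i} η l` of `(ψ i a t) g`, and `|(n i+1)⁻¹ ∑_a (ψ i a t) g - t g| = |(avg - t) g| ≤ η i` by `T.avg_le`.
`integral_Dj`: `Dj` depends on coordinates `< j+1`; by `integral_muM_update n j` it is the average over `a = m j` of
`∫ [comp j t (f j a) - comp j (ψ j a t) (f j a)]`, and by `avg_comp` (with `t ∈ A (j+1) ⊆ A j` and `ψ j a t ∈ A j`, `g = f j a`) each is
`≥ t (f j a) - (ψ j a t) (f j a) - 2 ∑_{l<j} η l > ε - 2 ε/8`.
-/

set_option autoImplicit false

open scoped BigOperators Topology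
open Set Filter MeasureTheory

namespace Pool.Agent.DD

variable {X : Type*} [NormedAddCommGroup X] [NormedSpace ℝ X] {ε : ℝ} {η : ℕ → ℝ} (T : Tree X ε η)

theorem avg_comp (hη : ∀ j, 0 ≤ η j) (S : ℕ → Bool) (i : ℕ) {t : X →L[ℝ] ℝ} (ht : t ∈ T.A i) {g : X}
    (hg : ‖g‖ ≤ 1) :
    |∫ m, (comp T.ψ (toN m) S i t) g ∂(muM T.n) - t g| ≤ ∑ l ∈ Finset.range i, η l := by
  have hav : ∀ (n : ℕ) (p : Fin (n + 1) → (X →L[ℝ] ℝ)), (avg n p) g = ((n : ℝ) + 1)⁻¹ * ∑ a, (p a) g := by
    intro n p
    unfold avg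
    rw [_root_.smul_apply, _root_.sum_apply, smul_eq_mul]
  induction i generalizing t with
  | zero =>
    have h0 : ∀ m : (i : ℕ) → Fin (T.n i + 1), (comp T.ψ (toN m) S 0 t) g = t g := fun m => rfl
    simp only [h0, integral_const, Finset.range_zero, Finset.sum_empty]
    simp
  | succ i ih =>
    rw [Finset.sum_range_succ]
    have hti : t ∈ T.A i := T.anti i ht
    by_cases hSi : S i = true
    · have hc : ∀ m : (i : ℕ) → Fin (T.n i + 1),
          comp T.ψ (toN m) S (i + 1) t = comp T.ψ (toN m) S i (T.ψ i (toN m i) t) := by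
        intro m
        simp only [comp, hSi, if_true]
      have hmeas : Measurable (fun m : (i : ℕ) → Fin (T.n i + 1) => (comp T.ψ (toN m) S (i + 1) t) g) := by
        refine measurable_of_prefix _ (i + 1) ?_
        intro x y hxy
        have : comp T.ψ (toN x) S (i + 1) t = comp T.ψ (toN y) S (i + 1) t := by
          refine comp_congr T.ψ ?_ (fun _ _ => rfl) t
          intro l hl
          unfold toN
          rw [hxy l hl]
        simp only [this]
      have hbd : ∀ m : (i : ℕ) → Fin (T.n i + 1), |(comp T.ψ (toN m) S (i + 1) t) g| ≤ 1 := fun m =>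
        abs_apply_le (comp_norm_le T (toN_le m) S ht) hg
      rw [integral_muM_update T.n i hmeas hbd]
      have hup : ∀ (a : Fin (T.n i + 1)) (m : (i : ℕ) → Fin (T.n i + 1)),
          (comp T.ψ (toN (Function.update m i a)) S (i + 1) t) g = (comp T.ψ (toN m) S i (T.ψ i a t)) g := by
        intro a m
        rw [hc]
        have h1 : toN (Function.update m i a) i = (a : ℕ) := by
          unfold toN
          rw [Function.update_self]
        rw [h1]
        have h2 : comp T.ψ (toN (Function.update m i a)) S i (T.ψ i a t) = comp T.ψ (toN m) S i (T.ψ i a t) := by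
          refine comp_congr T.ψ ?_ (fun _ _ => rfl) _
          intro l hl
          unfold toN
          rw [Function.update_of_ne (ne_of_lt hl)]
        rw [h2]
      simp only [hup]
      have hIH : ∀ a : Fin (T.n i + 1),
          |∫ m, (comp T.ψ (toN m) S i (T.ψ i a t)) g ∂(muM T.n) - (T.ψ i a t) g|
            ≤ ∑ l ∈ Finset.range i, η l := fun a =>
        ih (T.maps i a t (Nat.lt_succ_iff.mp a.2) ht)
      have hpos : (0 : ℝ) < (T.n i : ℝ) + 1 := by positivity
      have h1 : |((T.n i : ℝ) + 1)⁻¹ * ∑ a : Fin (T.n i + 1), ∫ m, (comp T.ψ (toN m) S i (T.ψ i a t)) g ∂(muM T.n)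
          - ((T.n i : ℝ) + 1)⁻¹ * ∑ a : Fin (T.n i + 1), (T.ψ i a t) g| ≤ ∑ l ∈ Finset.range i, η l := by
        rw [← mul_sub, ← Finset.sum_sub_distrib, abs_mul, abs_of_pos (inv_pos.mpr hpos), inv_mul_le_iff₀ hpos]
        refine (Finset.abs_sum_le_sum_abs _ _).trans ?_
        refine (Finset.sum_le_sum (fun a _ => hIH a)).trans ?_
        rw [Finset.sum_const, Finset.card_univ, Fintype.card_fin, nsmul_eq_mul]
        push_cast
        exact le_rfl
      have h2 : |((T.n i : ℝ) + 1)⁻¹ * ∑ a : Fin (T.n i + 1), (T.ψ i a t) g - t g| ≤ η i := by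
        have h3 := T.avg_le i t ht
        have h4 : ((T.n i : ℝ) + 1)⁻¹ * ∑ a : Fin (T.n i + 1), (T.ψ i a t) g - t g
            = -((t - avg (T.n i) (fun a => T.ψ i a t)) g) := by
          rw [_root_.sub_apply, hav]
          ring
        rw [h4, abs_neg]
        calc |(t - avg (T.n i) (fun a => T.ψ i a t)) g|
            = ‖(t - avg (T.n i) (fun a => T.ψ i a t)) g‖ := (Real.norm_eq_abs _).symm
          _ ≤ ‖t - avg (T.n i) (fun a => T.ψ i a t)‖ * ‖g‖ := ContinuousLinearMap.le_opNorm _ _
          _ ≤ ‖t - avg (T.n i) (fun a => T.ψ i a t)‖ * 1 :=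
              mul_le_mul_of_nonneg_left hg (norm_nonneg _)
          _ ≤ η i := by rw [mul_one]; exact h3
      calc |((T.n i : ℝ) + 1)⁻¹ * ∑ a : Fin (T.n i + 1), ∫ m, (comp T.ψ (toN m) S i (T.ψ i a t)) g ∂(muM T.n) - t g|
          = |(((T.n i : ℝ) + 1)⁻¹ * ∑ a : Fin (T.n i + 1), ∫ m, (comp T.ψ (toN m) S i (T.ψ i a t)) g ∂(muM T.n)
              - ((T.n i : ℝ) + 1)⁻¹ * ∑ a : Fin (T.n i + 1), (T.ψ i a t) g)
            + (((T.n i : ℝ) + 1)⁻¹ * ∑ a : Fin (T.n i + 1), (T.ψ i a t) g - t g)| := by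
              congr 1
              ring
        _ ≤ _ + _ := abs_add_le _ _
        _ ≤ ∑ l ∈ Finset.range i, η l + η i := add_le_add h1 h2
    · have hc : ∀ m : (i : ℕ) → Fin (T.n i + 1),
          comp T.ψ (toN m) S (i + 1) t = comp T.ψ (toN m) S i t := by
        intro m
        simp only [comp]
        rw [if_neg hSi]
      simp only [hc]
      exact (ih hti).trans (le_add_of_nonneg_right (hη i))

end Pool.Agent.DD
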