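import Pool.Agent.Lib.MP_dd9902_an.A1a

/-!
# Row dd-A1b : the averages (v), (vi) of section 3

`avg_comp`: induction on `i`.  `i = 0`: the integrand is the constant `t g`.  `i + 1`, `S i = false`: `comp (i+1) t = comp i t` and `t ∈ A i`.
`S i = true`: by `integral_muM_update n i` (the integrand depends on the coordinates `< i + 1`, measurable by `measurable_of_prefix`, bounded by `1`)
`∫ comp (i+1) t g = (n i + 1)⁻¹ ∑_a ∫ comp i (ψ i a t) g` (after the update at `i` the letter at `i` is `a`, and `comp i` does not see the coordinate `i`: `comp_congr`);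
by induction each summand is within `∑_{l<i} η l` of `(ψ i a t) g`, and `|(n i+1)⁻¹ ∑_a (ψ i a t) g - t g| = |(avg - t) g| ≤ η i` by `T.avg_le`.
`integral_Dj`: `Dj` depends on coordinates `< j+1`; by `integral_muM_update n j` it is the average over `a = m j` of
`∫ [comp j t (f j a) - comp j (ψ j a t) (f j a)]`, and by `avg_comp` (with `t ∈ A (j+1) ⊆ A j` and `ψ j a t ∈ A j`, `g = f j a`) each is
`≥ t (f j a) - (ψ j a t) (f j a) - 2 ∑_{l<j} η l > ε - 2 ε/8`.
-/

set_option autoImplicit false

open scoped BigOperators Topology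
open Set Filter MeasureTheory

namespace Pool.Agent.DD

variable {X : Type*} [NormedAddCommGroup X] [NormedSpace ℝ X] {ε : ℝ} {η : ℕ → ℝ} (T : Tree X ε η)

private theorem A1b_toN_update {n : ℕ → ℕ} (m : (i : ℕ) → Fin (n i + 1)) (j : ℕ) (a : Fin (n j + 1)) :
    toN (Function.update m j a) j = (a : ℕ) := by
  simp [toN]

private theorem A1b_toN_update_ne {n : ℕ → ℕ} (m : (i : ℕ) → Fin (n i + 1)) (j : ℕ)
    (a : Fin (n j + 1)) {l : ℕ} (h : l ≠ j) : toN (Function.update m j a) l = toN m l := by
  simp [toN, Function.update_of_ne h]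

private theorem A1b_bound (S : ℕ → Bool) (j : ℕ) {t : X →L[ℝ] ℝ} (ht : t ∈ T.A j) {g : X}
    (hg : ‖g‖ ≤ 1) (m : (i : ℕ) → Fin (T.n i + 1)) :
    |(comp T.ψ (toN m) S j t) g| ≤ 1 :=
  abs_apply_le (comp_norm_le T (fun i => toN_le m i) S ht) hg

private theorem A1b_integrable (S : ℕ → Bool) (j : ℕ) {t : X →L[ℝ] ℝ} (ht : t ∈ T.A j) {g : X}
    (hg : ‖g‖ ≤ 1) :
    Integrable (fun m : (i : ℕ) → Fin (T.n i + 1) => (comp T.ψ (toN m) S j t) g) (muM T.n) := by
  have hmeas : Measurable (fun m : (i : ℕ) → Fin (T.n i + 1) => (comp T.ψ (toN m) S j t) g) := by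
    apply measurable_of_prefix _ j
    intro x y hxy
    have h1 : comp T.ψ (toN x) S j t = comp T.ψ (toN y) S j t := by
      apply comp_congr
      · intro l hl
        simp only [toN]
        rw [hxy l hl]
      · intro l _
        rfl
    rw [h1]
  refine Integrable.of_bound hmeas.aestronglyMeasurable 1 ?_
  exact Filter.Eventually.of_forall (fun m => by
    rw [Real.norm_eq_abs]
    exact A1b_bound T S j ht hg m)

theorem integral_Dj (hη : ∀ j, 0 ≤ η j) (hs : ∀ N, ∑ l ∈ Finset.range N, η l ≤ ε / 8) (S : ℕ → Bool)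
    (j : ℕ) {t : X →L[ℝ] ℝ} (ht : t ∈ T.A (j + 1)) :
    ε / 2 ≤ ∫ m, Dj T j t S (toN m) ∂(muM T.n) := by
  have hε : 0 ≤ ε := by
    have h := hs 0
    simp at h
    linarith
  have htj : t ∈ T.A j := T.anti j ht
  have hψ : ∀ a, a ≤ T.n j → T.ψ j a t ∈ T.A j := fun a ha => T.maps j a t ha ht
  have hmeas : Measurable (fun m : (i : ℕ) → Fin (T.n i + 1) => Dj T j t S (toN m)) := by
    apply measurable_of_prefix _ (j + 1)
    intro x y hxy
    have hj : toN x j = toN y j := by
      simp only [toN]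
      rw [hxy j (Nat.lt_succ_self j)]
    have hc : ∀ u : X →L[ℝ] ℝ, comp T.ψ (toN x) S j u = comp T.ψ (toN y) S j u := by
      intro u
      apply comp_congr
      · intro l hl
        simp only [toN]
        rw [hxy l (Nat.lt_succ_of_lt hl)]
      · intro l _
        rfl
    simp only [Dj]
    rw [hj, hc, hc]
  have hbound : ∀ m : (i : ℕ) → Fin (T.n i + 1), |Dj T j t S (toN m)| ≤ 2 := by
    intro m
    have hm : toN m j ≤ T.n j := toN_le m j
    have hf := T.fnorm j (toN m j) hm
    have h1 := A1b_bound T S j htj hf m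
    have h2 := A1b_bound T S j (hψ _ hm) hf m
    simp only [Dj]
    rw [abs_le] at h1 h2 ⊢
    constructor <;> linarith [h1.1, h1.2, h2.1, h2.2]
  rw [integral_muM_update T.n j hmeas hbound]
  have hterm : ∀ a : Fin (T.n j + 1),
      3 * ε / 4 ≤ ∫ m, Dj T j t S (toN (Function.update m j a)) ∂(muM T.n) := by
    intro a
    have ha : (a : ℕ) ≤ T.n j := Nat.lt_succ_iff.mp a.2
    have hf := T.fnorm j a ha
    have heq : ∀ m : (i : ℕ) → Fin (T.n i + 1), Dj T j t S (toN (Function.update m j a)) =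
        (comp T.ψ (toN m) S j t) (T.f j a) - (comp T.ψ (toN m) S j (T.ψ j a t)) (T.f j a) := by
      intro m
      have hc : ∀ u : X →L[ℝ] ℝ, comp T.ψ (toN (Function.update m j a)) S j u =
          comp T.ψ (toN m) S j u := by
        intro u
        apply comp_congr
        · intro l hl
          exact A1b_toN_update_ne m j a (ne_of_lt hl)
        · intro l _
          rfl
      simp only [Dj]
      rw [A1b_toN_update, hc, hc]
    simp only [heq]
    rw [integral_sub (A1b_integrable T S j htj hf) (A1b_integrable T S j (hψ _ ha) hf)]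
    have h1 := avg_comp T hη S j htj hf
    have h2 := avg_comp T hη S j (hψ _ ha) hf
    have h3 := hs j
    have h4 := T.wit j a t ha ht
    rw [abs_le] at h1 h2
    linarith [h1.1, h1.2, h2.1, h2.2]
  have hsum : ((T.n j : ℝ) + 1) * (3 * ε / 4) ≤
      ∑ a : Fin (T.n j + 1), ∫ m, Dj T j t S (toN (Function.update m j a)) ∂(muM T.n) := by
    have h := Finset.card_nsmul_le_sum (Finset.univ : Finset (Fin (T.n j + 1)))
      (fun a => ∫ m, Dj T j t S (toN (Function.update m j a)) ∂(muM T.n)) (3 * ε / 4)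
      (fun a _ => hterm a)
    simp only [Finset.card_univ, Fintype.card_fin, nsmul_eq_mul] at h
    push_cast at h
    exact h
  have hpos : 0 < (T.n j : ℝ) + 1 := by positivity
  have hfin : 3 * ε / 4 ≤ ((T.n j : ℝ) + 1)⁻¹ *
      ∑ a : Fin (T.n j + 1), ∫ m, Dj T j t S (toN (Function.update m j a)) ∂(muM T.n) := by
    rw [inv_mul_eq_div, le_div_iff₀ hpos]
    linarith
  linarith

end Pool.Agent.DD
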