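import Pool.Agent.Lib.MP_dd9902_an.A1b

/-!
# Row dd-A3 : the level `r` (section 4)

Proof. `(m,S) ↦ Dj T j (t j) S (toN m)` is measurable (`measurable_of_prefix₂`, `N = j+1`, `comp_congr`) and `≤ 2` in absolute value
(`comp_norm_le`, `abs_apply_le`, `T.fnorm`).  Its integral over `(muM T.n).prod coin` is `≥ ε/2` (`integral_prod_symm` + `integral_Dj`).
`ε/2 ≤ ∫ D ≤ 2 P(D ≥ ε/4) + ε/4`, so `P(D ≥ ε/4) ≥ ε/8`.  Let `R` be the finite set of reals `(ε/16) * z`, `z : ℤ`, `|z| ≤ 16/ε + 1`.  If `D ≥ ε/4` take `z = ⌈y * 16/ε⌉`,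
`y = comp j (ψ j (m j) t) (f j (m j)) ∈ [-1,1]`: `r = (ε/16) z ∈ [y, y + ε/16)`, and `comp j t (f) ≥ y + ε/4 ≥ r + ε/8`.  So `{D ≥ ε/4} ⊆ ⋃_{r ∈ R} Pset r`, some `r ∈ R` has
`P(Pset r) ≥ ε/(8 |R|) =: δ`; infinitely many `j` have the same `r` (pigeonhole for `∃ᶠ`: a finite union of not-frequent events is not frequent).
-/

set_option autoImplicit false

open scoped BigOperators Topology
open Set Filter MeasureTheory

namespace Pool.Agent.DD

variable {X : Type*} [NormedAddCommGroup X] [NormedSpace ℝ X] {ε : ℝ} {η : ℕ → ℝ} (T : Tree X ε η)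

/-- High value without the flip at `j`, low value with the flip. -/
def Pset (j : ℕ) (t : X →L[ℝ] ℝ) (r : ℝ) : Set (((i : ℕ) → Fin (T.n i + 1)) × (ℕ → Bool)) :=
  {p | r + ε / 8 ≤ comp T.ψ (toN p.1) p.2 j t (T.f j (toN p.1 j)) ∧
    comp T.ψ (toN p.1) p.2 j (T.ψ j (toN p.1 j) t) (T.f j (toN p.1 j)) ≤ r}

private theorem A3_meas {β : Type*} [MeasurableSpace β] (j : ℕ) (t : X →L[ℝ] ℝ)
    (Φ : ℝ → ℝ → β) :
    Measurable (fun p : ((i : ℕ) → Fin (T.n i + 1)) × (ℕ → Bool) =>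
      Φ (comp T.ψ (toN p.1) p.2 j t (T.f j (toN p.1 j)))
        (comp T.ψ (toN p.1) p.2 j (T.ψ j (toN p.1 j) t) (T.f j (toN p.1 j)))) := by
  refine measurable_of_prefix₂ (E := fun i => Fin (T.n i + 1)) (E' := fun _ => Bool) _ (j + 1) ?_
  intro x y h1 h2
  have hj : toN x.1 j = toN y.1 j := by
    unfold toN
    rw [h1 j (Nat.lt_succ_self j)]
  have hm : ∀ l < j, toN x.1 l = toN y.1 l := by
    intro l hl
    unfold toN
    rw [h1 l (Nat.lt_succ_of_lt hl)]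
  have hS : ∀ l < j, x.2 l = y.2 l := fun l hl => h2 l (Nat.lt_succ_of_lt hl)
  have hc : ∀ s : X →L[ℝ] ℝ, comp T.ψ (toN x.1) x.2 j s = comp T.ψ (toN y.1) y.2 j s :=
    fun s => comp_congr T.ψ hm hS s
  simp only [hj, hc]

theorem measurableSet_Pset (j : ℕ) (t : X →L[ℝ] ℝ) (r : ℝ) : MeasurableSet (Pset T j t r) := by
  have h := A3_meas T j t (fun a b => (r + ε / 8 ≤ a ∧ b ≤ r : Prop))
  exact measurableSet_setOfPred.2 h

private theorem A3_cover (hε : 0 < ε) (j : ℕ) (t : X →L[ℝ] ℝ) (ht : t ∈ T.A (j + 1)) :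
    {p : ((i : ℕ) → Fin (T.n i + 1)) × (ℕ → Bool) | ε / 4 ≤ Dj T j t p.2 (toN p.1)} ⊆
      ⋃ z ∈ Finset.Icc (-(⌈16 / ε⌉)) (⌈16 / ε⌉), Pset T j t (ε / 16 * (z : ℝ)) := by
  intro p hp
  have hn : toN p.1 j ≤ T.n j := toN_le p.1 j
  have hmaps : T.ψ j (toN p.1 j) t ∈ T.A j := T.maps j _ t hn ht
  have hy : |comp T.ψ (toN p.1) p.2 j (T.ψ j (toN p.1 j) t) (T.f j (toN p.1 j))| ≤ 1 :=
    abs_apply_le (comp_norm_le T (fun i => toN_le p.1 i) p.2 hmaps) (T.fnorm j _ hn)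
  have hp' : ε / 4 ≤ comp T.ψ (toN p.1) p.2 j t (T.f j (toN p.1 j)) -
      comp T.ψ (toN p.1) p.2 j (T.ψ j (toN p.1 j) t) (T.f j (toN p.1 j)) := hp
  set y := comp T.ψ (toN p.1) p.2 j (T.ψ j (toN p.1 j) t) (T.f j (toN p.1 j)) with hydef
  set x := comp T.ψ (toN p.1) p.2 j t (T.f j (toN p.1 j)) with hxdef
  have h16 : 0 < 16 / ε := by positivity
  obtain ⟨hy1, hy2⟩ := abs_le.1 hy
  have hz1 : y * (16 / ε) ≤ ⌈y * (16 / ε)⌉ := Int.le_ceil _
  have hz2 : (⌈y * (16 / ε)⌉ : ℝ) < y * (16 / ε) + 1 := Int.ceil_lt_add_one _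
  have hle : y * (16 / ε) ≤ 16 / ε := by nlinarith
  have hge : -(16 / ε) ≤ y * (16 / ε) := by nlinarith
  have key : ε / 16 * (16 / ε) = 1 := by field_simp
  refine Set.mem_iUnion₂.2 ⟨⌈y * (16 / ε)⌉, ?_, ?_⟩
  · rw [Finset.mem_Icc]
    constructor
    · have h3 : (-(⌈16 / ε⌉ : ℝ)) ≤ (⌈y * (16 / ε)⌉ : ℝ) := by
        have := Int.le_ceil (16 / ε)
        linarith
      exact_mod_cast h3
    · exact Int.ceil_le_ceil hle
  · constructor
    · show ε / 16 * (⌈y * (16 / ε)⌉ : ℝ) + ε / 8 ≤ x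
      have h4 : ε / 16 * (⌈y * (16 / ε)⌉ : ℝ) ≤ ε / 16 * (y * (16 / ε) + 1) :=
        mul_le_mul_of_nonneg_left hz2.le (by positivity)
      have h5 : ε / 16 * (y * (16 / ε) + 1) = y + ε / 16 := by
        calc ε / 16 * (y * (16 / ε) + 1) = y * (ε / 16 * (16 / ε)) + ε / 16 := by ring
          _ = y + ε / 16 := by rw [key]; ring
      linarith
    · show y ≤ ε / 16 * (⌈y * (16 / ε)⌉ : ℝ)
      have h4 : ε / 16 * (y * (16 / ε)) ≤ ε / 16 * (⌈y * (16 / ε)⌉ : ℝ) :=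
        mul_le_mul_of_nonneg_left hz1 (by positivity)
      have h5 : ε / 16 * (y * (16 / ε)) = y := by
        calc ε / 16 * (y * (16 / ε)) = y * (ε / 16 * (16 / ε)) := by ring
          _ = y := by rw [key]; ring
      linarith

private theorem A3_prob (hε : 0 < ε) (hη : ∀ j, 0 ≤ η j)
    (hs : ∀ N, ∑ l ∈ Finset.range N, η l ≤ ε / 8) (j : ℕ) (t : X →L[ℝ] ℝ) (ht : t ∈ T.A (j + 1)) :
    ε / 8 ≤ ((muM T.n).prod coin).real
      {p : ((i : ℕ) → Fin (T.n i + 1)) × (ℕ → Bool) | ε / 4 ≤ Dj T j t p.2 (toN p.1)} := by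
  have hm : Measurable (fun p : ((i : ℕ) → Fin (T.n i + 1)) × (ℕ → Bool) =>
      Dj T j t p.2 (toN p.1)) := A3_meas T j t (fun a b => a - b)
  have hb : ∀ p : ((i : ℕ) → Fin (T.n i + 1)) × (ℕ → Bool), |Dj T j t p.2 (toN p.1)| ≤ 2 := by
    intro p
    have hn : toN p.1 j ≤ T.n j := toN_le p.1 j
    have hmaps : T.ψ j (toN p.1 j) t ∈ T.A j := T.maps j _ t hn ht
    have h1 : |comp T.ψ (toN p.1) p.2 j (T.ψ j (toN p.1 j) t) (T.f j (toN p.1 j))| ≤ 1 :=
      abs_apply_le (comp_norm_le T (fun i => toN_le p.1 i) p.2 hmaps) (T.fnorm j _ hn)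
    have h2 : |comp T.ψ (toN p.1) p.2 j t (T.f j (toN p.1 j))| ≤ 1 :=
      abs_apply_le (comp_norm_le T (fun i => toN_le p.1 i) p.2 (T.anti j ht)) (T.fnorm j _ hn)
    unfold Dj
    calc _ ≤ _ := abs_sub _ _
      _ ≤ 1 + 1 := add_le_add h2 h1
      _ = 2 := by norm_num
  have hint : Integrable (fun p : ((i : ℕ) → Fin (T.n i + 1)) × (ℕ → Bool) =>
      Dj T j t p.2 (toN p.1)) ((muM T.n).prod coin) :=
    Integrable.of_bound hm.aestronglyMeasurable 2
      (Eventually.of_forall fun p => by rw [Real.norm_eq_abs]; exact hb p)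
  have h1 : ε / 2 ≤ ∫ p, Dj T j t p.2 (toN p.1) ∂((muM T.n).prod coin) := by
    rw [integral_prod_symm _ hint]
    have h2 : ∫ _ : ℕ → Bool, ε / 2 ∂coin = ε / 2 := by simp
    rw [← h2]
    exact integral_mono (integrable_const _) hint.integral_prod_right
      (fun S => integral_Dj T hη hs S j ht)
  set U := {p : ((i : ℕ) → Fin (T.n i + 1)) × (ℕ → Bool) | ε / 4 ≤ Dj T j t p.2 (toN p.1)} with hU
  have hUm : MeasurableSet U := measurableSet_le measurable_const hm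
  have h3 : ∫ p, Dj T j t p.2 (toN p.1) ∂((muM T.n).prod coin) ≤
      ∫ p, (U.indicator (fun _ => (2 : ℝ)) p + ε / 4) ∂((muM T.n).prod coin) := by
    refine integral_mono hint ?_ ?_
    · exact ((integrable_const (2 : ℝ)).indicator hUm).add (integrable_const _)
    · intro p
      by_cases hp : p ∈ U
      · simp only [Set.indicator_of_mem hp]
        have := (abs_le.1 (hb p)).2
        have : (0 : ℝ) < ε / 4 := by positivity
        linarith
      · simp only [Set.indicator_of_notMem hp]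
        have : Dj T j t p.2 (toN p.1) < ε / 4 := not_le.1 hp
        linarith
  rw [integral_add ((integrable_const (2 : ℝ)).indicator hUm) (integrable_const _),
    integral_indicator hUm] at h3
  simp only [integral_const, smul_eq_mul, measureReal_restrict_apply_univ, probReal_univ, one_mul] at h3
  linarith

theorem exists_level (hε : 0 < ε) (hη : ∀ j, 0 ≤ η j) (hs : ∀ N, ∑ l ∈ Finset.range N, η l ≤ ε / 8)
    (t : ℕ → X →L[ℝ] ℝ) (ht : ∀ j, t j ∈ T.A (j + 1)) :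
    ∃ (r δ : ℝ), 0 < δ ∧ ∃ᶠ j in atTop, δ ≤ ((muM T.n).prod coin).real (Pset T j (t j) r) := by
  set R := Finset.Icc (-(⌈16 / ε⌉)) (⌈16 / ε⌉) with hR
  have hne : R.Nonempty := by
    rw [hR, Finset.nonempty_Icc]
    have : (0 : ℤ) ≤ ⌈16 / ε⌉ := Int.ceil_nonneg (by positivity)
    omega
  have hcard : 0 < (R.card : ℝ) := by exact_mod_cast hne.card_pos
  have hz : ∀ j, ∃ z ∈ R, ε / 8 / R.card ≤
      ((muM T.n).prod coin).real (Pset T j (t j) (ε / 16 * (z : ℝ))) := by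
    intro j
    by_contra hcon
    push Not at hcon
    have h1 := A3_prob T hε hη hs j (t j) (ht j)
    have h2 : ((muM T.n).prod coin).real
        {p : ((i : ℕ) → Fin (T.n i + 1)) × (ℕ → Bool) | ε / 4 ≤ Dj T j (t j) p.2 (toN p.1)} ≤
        ((muM T.n).prod coin).real (⋃ z ∈ R, Pset T j (t j) (ε / 16 * (z : ℝ))) :=
      measureReal_mono (A3_cover T hε j (t j) (ht j)) (measure_ne_top _ _)
    have h3 : ((muM T.n).prod coin).real (⋃ z ∈ R, Pset T j (t j) (ε / 16 * (z : ℝ))) ≤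
        ∑ z ∈ R, ((muM T.n).prod coin).real (Pset T j (t j) (ε / 16 * (z : ℝ))) :=
      measureReal_biUnion_finset_le _ _
    have h4 : ∑ z ∈ R, ((muM T.n).prod coin).real (Pset T j (t j) (ε / 16 * (z : ℝ))) <
        ∑ _z ∈ R, ε / 8 / R.card := Finset.sum_lt_sum_of_nonempty hne hcon
    rw [Finset.sum_const, nsmul_eq_mul, mul_div_cancel₀ _ hcard.ne'] at h4
    linarith
  by_contra hcon
  push Not at hcon
  have h5 : ∀ z ∈ R, ∀ᶠ j in atTop, ¬ (ε / 8 / R.card ≤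
      ((muM T.n).prod coin).real (Pset T j (t j) (ε / 16 * (z : ℝ)))) := by
    intro z _
    exact not_frequently.1 (by simpa using hcon (ε / 16 * (z : ℝ)) (ε / 8 / R.card) (by positivity))
  obtain ⟨j, hj⟩ := ((Filter.eventually_all_finset R).2 h5).exists
  obtain ⟨z, hzR, hzj⟩ := hz j
  exact hj z hzR hzj

end Pool.Agent.DD
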