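import Mathlib

/-!
# Row dd-A4 : choice of `m` (abstract)

Proof. Let `U j = {ω | δ/2 ≤ ν.real {s | (ω,s) ∈ P j}}` (measurable: `measurable_measure_prodMk_left`).  By `Measure.prod_apply` / `integral` of the sections:
`δ ≤ (μ.prod ν).real (P j) = ∫ ν.real(section) dμ ≤ μ.real (U j) + δ/2`, so `μ.real (U j) ≥ δ/2` for infinitely many `j`.
The sets `W k = ⋃_{j ≥ k, δ ≤ ..} U j` are decreasing of measure `≥ δ/2`, hence `μ (⋂ k, W k) ≥ δ/2 > 0`
(`tendsto_measure_iInter_atTop`), so `⋂ k, W k` is nonempty; any `ω` in it works.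
-/

set_option autoImplicit false

open scoped BigOperators Topology
open Set Filter MeasureTheory

namespace Pool.Agent.DD

theorem exists_section {Ω Ω' : Type*} [MeasurableSpace Ω] [MeasurableSpace Ω'] (μ : Measure Ω)
    (ν : Measure Ω') [IsProbabilityMeasure μ] [IsProbabilityMeasure ν] (P : ℕ → Set (Ω × Ω'))
    (hP : ∀ j, MeasurableSet (P j)) {δ : ℝ} (hδ : 0 < δ)
    (h : ∃ᶠ j in atTop, δ ≤ (μ.prod ν).real (P j)) :
    ∃ ω : Ω, ∃ᶠ j in atTop, δ / 2 ≤ ν.real {s | (ω, s) ∈ P j} := by
  set c : ENNReal := ENNReal.ofReal (δ / 2) with hc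
  have hcpos : 0 < c := ENNReal.ofReal_pos.2 (by linarith)
  have hctop : c ≠ ⊤ := ENNReal.ofReal_ne_top
  set U : ℕ → Set Ω := fun j => {ω | c ≤ ν (Prod.mk ω ⁻¹' P j)} with hU
  have hUm : ∀ j, MeasurableSet (U j) := fun j =>
    measurableSet_le measurable_const (measurable_measure_prodMk_left (hP j))
  have hbig : ∀ j, δ ≤ (μ.prod ν).real (P j) → c ≤ μ (U j) := by
    intro j hj
    have h1 : ENNReal.ofReal δ ≤ (μ.prod ν) (P j) := by
      rw [Measure.real] at hj
      exact (ENNReal.ofReal_le_iff_le_toReal (measure_ne_top _ _)).2 hj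
    have h2 : (μ.prod ν) (P j) ≤ μ (U j) + c := by
      rw [Measure.prod_apply (hP j)]
      calc ∫⁻ ω, ν (Prod.mk ω ⁻¹' P j) ∂μ ≤ ∫⁻ ω, ((U j).indicator (fun _ => (1 : ENNReal)) ω + c) ∂μ := by
            refine lintegral_mono (fun ω => ?_)
            by_cases hω : ω ∈ U j
            · simp only [Set.indicator_of_mem hω]
              exact prob_le_one.trans le_self_add
            · simp only [Set.indicator_of_notMem hω, zero_add]
              exact (not_le.1 hω).le
        _ = μ (U j) + c := by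
            rw [lintegral_add_right _ measurable_const, lintegral_indicator (hUm j)]
            simp
    have h3 : ENNReal.ofReal δ = c + c := by
      rw [hc, ← ENNReal.ofReal_add (by linarith) (by linarith)]
      congr 1
      ring
    rw [h3] at h1
    exact (ENNReal.add_le_add_iff_right hctop).1 (h1.trans h2)
  set W : ℕ → Set Ω := fun k => ⋃ j, ⋃ (_ : k ≤ j), U j with hW
  have hWm : ∀ k, MeasurableSet (W k) := fun k =>
    MeasurableSet.iUnion fun j => MeasurableSet.iUnion fun _ => hUm j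
  have hWanti : Antitone W := by
    intro k l hkl
    refine Set.iUnion_subset fun j => Set.iUnion_subset fun hj => ?_
    exact Set.subset_iUnion₂_of_subset j (hkl.trans hj) subset_rfl
  have hWc : ∀ k, c ≤ μ (W k) := by
    intro k
    obtain ⟨j, hkj, hj⟩ := (frequently_atTop.1 h) k
    exact (hbig j hj).trans (measure_mono (Set.subset_iUnion₂_of_subset j hkj subset_rfl))
  have hint : c ≤ μ (⋂ k, W k) := by
    rw [hWanti.measure_iInter (fun k => (hWm k).nullMeasurableSet) ⟨0, measure_ne_top _ _⟩]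
    exact le_iInf hWc
  have hne : (⋂ k, W k).Nonempty := by
    apply nonempty_of_measure_ne_zero (μ := μ)
    exact (hcpos.trans_le hint).ne'
  obtain ⟨ω, hω⟩ := hne
  refine ⟨ω, frequently_atTop.2 fun k => ?_⟩
  have h4 := Set.mem_iInter.1 hω k
  simp only [hW, Set.mem_iUnion, exists_prop] at h4
  obtain ⟨j, hkj, hj⟩ := h4
  refine ⟨j, hkj, ?_⟩
  have h5 : c ≤ ν (Prod.mk ω ⁻¹' P j) := hj
  rw [Measure.real]
  exact (ENNReal.ofReal_le_iff_le_toReal (measure_ne_top _ _)).1 h5

end Pool.Agent.DD
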