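import Mathlib

/-!
# MP_dd9902_an : definitions

Paper: /team-store/dd9902_paper.md
-/

set_option autoImplicit false

open scoped BigOperators
open Set Filter MeasureTheory

namespace Pool.Agent.DD

section

variable {Z : Type*} [NormedAddCommGroup Z] [NormedSpace ℝ Z]

/-- The uniform average of `n + 1` vectors. -/
noncomputable def avg (n : ℕ) (p : Fin (n + 1) → Z) : Z := ((n : ℝ) + 1)⁻¹ • ∑ i, p i

/-- `A` is `(ε,η)`-good: no point `k` of `A` is within `η` of a uniform average of points of `A` which have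
distance `> ε` from `k`. -/
def Good (ε η : ℝ) (A : Set Z) : Prop :=
  ∀ k ∈ A, ∀ (n : ℕ) (p : Fin (n + 1) → Z), (∀ i, p i ∈ A ∧ ε < ‖k - p i‖) → η < ‖k - avg n p‖

/-- `A` is `ε`-small: covered by countably many good sets. -/
def Small (ε : ℝ) (A : Set Z) : Prop :=
  ∃ (G : ℕ → Set Z) (η : ℕ → ℝ), (∀ n, 0 < η n ∧ Good ε (η n) (G n)) ∧ A ⊆ ⋃ n, G n

/-- The points of `A` far from `k`. -/
def farPts (ε : ℝ) (A : Set Z) (k : Z) : Set Z := {z | z ∈ A ∧ ε < ‖k - z‖}

/-- The points of `A` near `k`. -/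
def nearPts (ε : ℝ) (A : Set Z) (k : Z) : Set Z := {z | z ∈ A ∧ ‖k - z‖ ≤ ε}

open Classical in
/-- The distance to the convex hull of the far points (`1` if there are none). -/
noncomputable def phi (ε : ℝ) (A : Set Z) (k x : Z) : ℝ :=
  if (farPts ε A k).Nonempty then Metric.infDist x (convexHull ℝ (farPts ε A k)) else 1

/-- The distance to the convex hull of the near points. -/
noncomputable def psi (ε : ℝ) (A : Set Z) (k x : Z) : ℝ :=
  Metric.infDist x (convexHull ℝ (nearPts ε A k))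

/-- `phi² + w psi²`. -/
noncomputable def thk (ε w : ℝ) (A : Set Z) (k x : Z) : ℝ :=
  phi ε A k x ^ 2 + w * psi ε A k x ^ 2

/-- The supremum of `thk` over `k ∈ A`. -/
noncomputable def theta (ε w : ℝ) (A : Set Z) (x : Z) : ℝ :=
  sSup ((fun k => thk ε w A k x) '' A)

/-- The convexity defect at the midpoint. -/
noncomputable def defect (Θ : Z → ℝ) (x y : Z) : ℝ :=
  (1 / 2) * Θ x + (1 / 2) * Θ y - Θ ((1 / 2 : ℝ) • (x + y))

/-- Composition of the maps `ψ i (m i)`, `i ∈ S`, `i < n`, the largest index first. -/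
def comp (ψ : ℕ → ℕ → Z → Z) (m : ℕ → ℕ) (S : ℕ → Bool) : ℕ → Z → Z
  | 0, t => t
  | i + 1, t => comp ψ m S i (if S i then ψ i (m i) t else t)

end

/-- The tree of points produced by the failure of smallness (paper, section 3). -/
structure Tree (X : Type*) [NormedAddCommGroup X] [NormedSpace ℝ X] (ε : ℝ) (η : ℕ → ℝ) where
  /-- the sets `A_j` -/
  A : ℕ → Set (X →L[ℝ] ℝ)
  /-- the number of maps at level `j` is `n j + 1` -/
  n : ℕ → ℕ
  /-- the maps -/
  ψ : ℕ → ℕ → (X →L[ℝ] ℝ) → (X →L[ℝ] ℝ)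
  /-- the witnesses -/
  f : ℕ → ℕ → X
  ball : ∀ j, ∀ k ∈ A j, ‖k‖ ≤ 1
  anti : ∀ j, A (j + 1) ⊆ A j
  ne : ∀ j, (A j).Nonempty
  maps : ∀ j a k, a ≤ n j → k ∈ A (j + 1) → ψ j a k ∈ A j
  avg_le : ∀ j k, k ∈ A (j + 1) → ‖k - avg (n j) (fun a => ψ j a k)‖ ≤ η j
  fnorm : ∀ j a, a ≤ n j → ‖f j a‖ ≤ 1
  wit : ∀ j a k, a ≤ n j → k ∈ A (j + 1) → ε < k (f j a) - (ψ j a k) (f j a)
  osc : ∀ (j : ℕ) (m : ℕ → ℕ) (S : ℕ → Bool), (∀ i, m i ≤ n i) → ∀ k ∈ A (j + 1), ∀ k' ∈ A (j + 1),
    |comp ψ m S (j + 1) k (f j (m j)) - comp ψ m S (j + 1) k' (f j (m j))| ≤ η j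

/-- The uniform probability measure on `Fin (n + 1)`. -/
noncomputable def unif (n : ℕ) : Measure (Fin (n + 1)) := ProbabilityTheory.uniformOn Set.univ

instance (n : ℕ) : IsProbabilityMeasure (unif n) := by
  unfold unif
  exact ProbabilityTheory.uniformOn_isProbabilityMeasure Set.finite_univ Set.univ_nonempty

/-- The product measure for the choices `m`. -/
noncomputable def muM (n : ℕ → ℕ) : Measure ((i : ℕ) → Fin (n i + 1)) :=
  Measure.infinitePi (fun i => unif (n i))

/-- The fair coin measure on `Bool`. -/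
noncomputable def coin1 : Measure Bool := ProbabilityTheory.uniformOn Set.univ

instance : IsProbabilityMeasure coin1 := by
  unfold coin1
  exact ProbabilityTheory.uniformOn_isProbabilityMeasure Set.finite_univ Set.univ_nonempty

/-- The fair coin measure on `ℕ → Bool`. -/
noncomputable def coin : Measure (ℕ → Bool) := Measure.infinitePi (fun _ => coin1)

instance (n : ℕ → ℕ) : IsProbabilityMeasure (muM n) := by unfold muM; infer_instance

instance : IsProbabilityMeasure coin := by unfold coin; infer_instance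

/-- The coordinates of a choice, as a sequence of natural numbers. -/
def toN {n : ℕ → ℕ} (m : (i : ℕ) → Fin (n i + 1)) : ℕ → ℕ := fun i => (m i : ℕ)

/-- The difference `D_j(S,m)` (paper, section 3). -/
noncomputable def Dj {X : Type*} [NormedAddCommGroup X] [NormedSpace ℝ X] {ε : ℝ} {η : ℕ → ℝ}
    (T : Tree X ε η) (j : ℕ) (t : X →L[ℝ] ℝ) (S : ℕ → Bool) (m : ℕ → ℕ) : ℝ :=
  comp T.ψ m S j t (T.f j (m j)) - comp T.ψ m S j (T.ψ j (m j) t) (T.f j (m j))

end Pool.Agent.DD
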