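import Pool.Agent.Lib.MP_dd9902_an.Defs

set_option autoImplicit false

open scoped BigOperators Topology
open Set Filter MeasureTheory

namespace Pool.Agent.DD

variable {Z : Type*} [NormedAddCommGroup Z] [NormedSpace ℝ Z]

theorem Good.mono {ε η : ℝ} {A B : Set Z} (h : Good ε η A) (hB : B ⊆ A) : Good ε η B :=
  fun k hk n p hp => h k (hB hk) n p (fun i => ⟨hB (hp i).1, (hp i).2⟩)

theorem good_empty (ε η : ℝ) : Good ε η (∅ : Set Z) := fun k hk => absurd hk (Set.notMem_empty k)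

theorem Small.mono {ε : ℝ} {A B : Set Z} (h : Small ε A) (hB : B ⊆ A) : Small ε B := by
  obtain ⟨G, η, h1, h2⟩ := h
  exact ⟨G, η, h1, hB.trans h2⟩

theorem Small.of_good {ε η : ℝ} {A : Set Z} (hη : 0 < η) (h : Good ε η A) : Small ε A :=
  ⟨fun _ => A, fun _ => η, fun _ => ⟨hη, h⟩, fun x hx => Set.mem_iUnion.2 ⟨0, hx⟩⟩

theorem Small.iUnion {ι : Type*} [Countable ι] {ε : ℝ} {A : ι → Set Z} (h : ∀ i, Small ε (A i)) :
    Small ε (⋃ i, A i) := by
  rcases isEmpty_or_nonempty ι with hι | hι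
  · have : (⋃ i, A i) = ∅ := Set.iUnion_of_empty A
    rw [this]
    exact Small.of_good one_pos (good_empty ε 1)
  · choose G η h1 h2 using h
    obtain ⟨e, he⟩ := exists_surjective_nat (ι × ℕ)
    refine ⟨fun n => G (e n).1 (e n).2, fun n => η (e n).1 (e n).2, fun n => h1 _ _, ?_⟩
    intro x hx
    obtain ⟨i, hi⟩ := Set.mem_iUnion.1 hx
    obtain ⟨m, hm⟩ := Set.mem_iUnion.1 (h2 i hi)
    obtain ⟨n, hn⟩ := he (i, m)
    refine Set.mem_iUnion.2 ⟨n, ?_⟩
    simp only [hn]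
    exact hm

theorem Small.union {ε : ℝ} {A B : Set Z} (h : Small ε A) (h' : Small ε B) : Small ε (A ∪ B) := by
  have : A ∪ B = ⋃ b : Bool, (if b then A else B) := by
    ext x
    simp [Set.mem_iUnion]
    tauto
  rw [this]
  refine Small.iUnion (fun b => ?_)
  cases b
  · simpa using h'
  · simpa using h

end Pool.Agent.DD
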