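import Pool.Agent.Lib.MP_dd9902_an.I1a

/-!
# Row dd-I1b : the sigma-ideal of small sets

`Small.iUnion`: re-index `ι × ℕ` (countable) by `ℕ` (`Encodable`/`exists_surjective_nat`, treat empty `ι`: the empty set is good for every `η`).
`exists_fiber`: `A = ⋃ i, {k ∈ A | g k = i}`.
-/

set_option autoImplicit false

open scoped BigOperators Topology
open Set Filter MeasureTheory

namespace Pool.Agent.DD

variable {Z : Type*} [NormedAddCommGroup Z] [NormedSpace ℝ Z]

theorem exists_fiber {ι : Type*} [Countable ι] {ε : ℝ} {A : Set Z} (h : ¬ Small ε A) (g : Z → ι) :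
    ∃ i, ¬ Small ε {k | k ∈ A ∧ g k = i} := by
  by_contra hcon
  have hcon' : ∀ i, Small ε {k | k ∈ A ∧ g k = i} := fun i => by
    by_contra hi
    exact hcon ⟨i, hi⟩
  exact h ((Small.iUnion hcon').mono fun k hk => mem_iUnion.2 ⟨g k, hk, rfl⟩)

theorem nonempty_of_not_small {ε : ℝ} {A : Set Z} (h : ¬ Small ε A) : A.Nonempty := by
  rw [Set.nonempty_iff_ne_empty]
  rintro rfl
  exact h (Small.of_good one_pos (good_empty ε 1))

/-- Shrinking so that finitely many functions have small oscillation (partition by `⌊h i k / η⌋`). -/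
theorem shrink_osc {ι : Type*} [Finite ι] {ε η : ℝ} (hη : 0 < η) {A : Set Z} (hA : ¬ Small ε A)
    (h : ι → Z → ℝ) :
    ∃ A' ⊆ A, ¬ Small ε A' ∧ ∀ i, ∀ k ∈ A', ∀ k' ∈ A', |h i k - h i k'| ≤ η := by
  obtain ⟨c, hc⟩ := exists_fiber hA (fun k => fun i => ⌊h i k / η⌋)
  refine ⟨{k | k ∈ A ∧ (fun i => ⌊h i k / η⌋) = c}, fun k hk => hk.1, hc, ?_⟩
  rintro i k ⟨_, hk⟩ k' ⟨_, hk'⟩
  have h1 : ⌊h i k / η⌋ = ⌊h i k' / η⌋ := (congrFun hk i).trans (congrFun hk' i).symm
  have h2 := Int.abs_sub_lt_one_of_floor_eq_floor h1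
  rw [← sub_div, abs_div, abs_of_pos hη, div_lt_one hη] at h2
  exact h2.le

end Pool.Agent.DD
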