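import Pool.Agent.Lib.MP_dd9902_an.I1b

/-!
# Row dd-I2 : the Step of section 3

Proof. `B = {k ∈ A | ∃ n p, (∀ i, p i ∈ A ∧ ε < ‖k - p i‖) ∧ ‖k - avg n p‖ ≤ η}`.  `A \ B` is `(ε,η)`-good, so `B` is not small
(`Small.union`).  Choose `n(k)`, `p(k)` for `k ∈ B`; `exists_fiber` with `g = n(·)` gives `n` and a non-small `B₁ ⊆ B`.  For `a ≤ n` let
`ψ a k = p(k) a` (and `0` for `a > n`).  Let `D` be a countable dense subset of the unit ball of `X` (e.g. `TopologicalSpace.exists_countable_dense` of the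
subtype `closedBall 0 1`, separable since metrizable second countable): for a functional `g` with `‖g‖ > ε ≥ 0` there is `x ∈ D` with `g x > ε`
(`ContinuousLinearMap.exists_lt_apply_of_lt_opNorm` or `norm_le_of_forall...`, replace `x` by `-x`, continuity).  Choose the witnesses `x_a(k) ∈ D` for `g = k - ψ a k`, `a ≤ n`, and apply
`exists_fiber` with `g k = (a : Fin (n+1)) ↦ x_a(k)` (countable type).
-/

set_option autoImplicit false

open scoped BigOperators Topology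
open Set Filter MeasureTheory

namespace Pool.Agent.DD

variable {X : Type*} [NormedAddCommGroup X] [NormedSpace ℝ X] [TopologicalSpace.SeparableSpace X]

private lemma I2_wit {X : Type*} [NormedAddCommGroup X] [NormedSpace ℝ X]
    [TopologicalSpace.SeparableSpace X] :
    ∃ d : ℕ → X, (∀ i, ‖d i‖ ≤ 1) ∧
      ∀ (g : X →L[ℝ] ℝ) (ε : ℝ), 0 ≤ ε → ε < ‖g‖ → ∃ i, ε < g (d i) := by
  have : SecondCountableTopology X := UniformSpace.secondCountable_of_separable X
  have : Nonempty (Metric.closedBall (0 : X) 1) := ⟨⟨0, by simp⟩⟩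
  refine ⟨fun i => (TopologicalSpace.denseSeq (Metric.closedBall (0 : X) 1) i : X), ?_, ?_⟩
  · intro i
    exact mem_closedBall_zero_iff.mp (TopologicalSpace.denseSeq (Metric.closedBall (0 : X) 1) i).2
  · intro g ε hε hg
    obtain ⟨x, hx1, hx2⟩ := g.exists_lt_apply_of_lt_opNorm hg
    obtain ⟨y, hy1, hy2⟩ : ∃ y : X, ‖y‖ ≤ 1 ∧ ε < g y := by
      rw [Real.norm_eq_abs, lt_abs] at hx2
      rcases hx2 with h | h
      · exact ⟨x, hx1.le, h⟩
      · exact ⟨-x, by rw [norm_neg]; exact hx1.le, by rw [map_neg]; exact h⟩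
    have hopen : IsOpen {z : Metric.closedBall (0 : X) 1 | ε < g z} :=
      isOpen_lt continuous_const (g.continuous.comp continuous_subtype_val)
    have hne : {z : Metric.closedBall (0 : X) 1 | ε < g z}.Nonempty :=
      ⟨⟨y, by simpa using hy1⟩, hy2⟩
    obtain ⟨i, hi⟩ := (TopologicalSpace.denseRange_denseSeq
      (Metric.closedBall (0 : X) 1)).exists_mem_open hopen hne
    exact ⟨i, hi⟩

theorem step {ε η : ℝ} (hε : 0 ≤ ε) (hη : 0 < η) {A : Set (X →L[ℝ] ℝ)} (hA : ¬ Small ε A) :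
    ∃ (n : ℕ) (ψ : ℕ → (X →L[ℝ] ℝ) → (X →L[ℝ] ℝ)) (f : ℕ → X) (A' : Set (X →L[ℝ] ℝ)),
      A' ⊆ A ∧ ¬ Small ε A' ∧ (∀ a, ‖f a‖ ≤ 1) ∧
      ∀ k ∈ A', (∀ a, a ≤ n → ψ a k ∈ A) ∧ ‖k - avg n (fun a => ψ a k)‖ ≤ η ∧
        ∀ a, a ≤ n → ε < k (f a) - (ψ a k) (f a) := by
  classical
  set B : Set (X →L[ℝ] ℝ) := {k | k ∈ A ∧ ∃ (n : ℕ) (p : Fin (n + 1) → (X →L[ℝ] ℝ)),
    (∀ i, p i ∈ A ∧ ε < ‖k - p i‖) ∧ ‖k - avg n p‖ ≤ η} with hBdef
  have hgood : Good ε η (A \ B) := by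
    intro k hk n p hp
    by_contra hcon
    push Not at hcon
    exact hk.2 ⟨hk.1, n, p, fun i => ⟨(hp i).1.1, (hp i).2⟩, hcon⟩
  have hB : ¬ Small ε B := by
    intro hs
    apply hA
    refine Small.mono (hs.union (Small.of_good hη hgood)) ?_
    intro k hk
    by_cases h : k ∈ B
    · exact Or.inl h
    · exact Or.inr ⟨hk, h⟩
  have hch : ∀ k : X →L[ℝ] ℝ, ∃ (n : ℕ) (p : ℕ → (X →L[ℝ] ℝ)), k ∈ B →
      (∀ a, a ≤ n → p a ∈ A ∧ ε < ‖k - p a‖) ∧ ‖k - avg n (fun a => p a)‖ ≤ η := by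
    intro k
    by_cases hk : k ∈ B
    · obtain ⟨n, p, hp, hav⟩ := hk.2
      refine ⟨n, fun a => if h : a < n + 1 then p ⟨a, h⟩ else 0, fun _ => ⟨?_, ?_⟩⟩
      · intro a ha
        have ha' : a < n + 1 := by omega
        simp only [ha', dif_pos]
        exact hp _
      · have : (fun a : Fin (n + 1) => (fun a : ℕ => if h : a < n + 1 then p ⟨a, h⟩ else 0) a)
            = p := by
          funext a
          simp [a.2]
        rw [this]
        exact hav
    · exact ⟨0, fun _ => 0, fun h => absurd h hk⟩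
  choose N P hNP using hch
  obtain ⟨n, hn⟩ := exists_fiber hB N
  obtain ⟨d, hd1, hd2⟩ := I2_wit (X := X)
  have hch2 : ∀ (k : X →L[ℝ] ℝ) (a : ℕ), ∃ i : ℕ, k ∈ B → a ≤ N k →
      ε < (k - P k a) (d i) := by
    intro k a
    by_cases hk : k ∈ B
    · by_cases ha : a ≤ N k
      · obtain ⟨i, hi⟩ := hd2 (k - P k a) ε hε (((hNP k hk).1 a ha).2)
        exact ⟨i, fun _ _ => hi⟩
      · exact ⟨0, fun _ h => absurd h ha⟩
    · exact ⟨0, fun h => absurd h hk⟩
  choose I hI using hch2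
  obtain ⟨c, hc⟩ := exists_fiber hn (fun k => fun a : Fin (n + 1) => I k a)
  refine ⟨n, fun a k => P k a, fun a => if h : a < n + 1 then d (c ⟨a, h⟩) else 0,
    {k | k ∈ {k | k ∈ B ∧ N k = n} ∧ (fun a : Fin (n + 1) => I k a) = c}, ?_, hc, ?_, ?_⟩
  · intro k hk
    exact hk.1.1.1
  · intro a
    by_cases h : a < n + 1
    · simp only [h, dif_pos]
      exact hd1 _
    · simp [h]
  · rintro k ⟨⟨hkB, hkn⟩, hkc⟩
    have h1 := hNP k hkB
    rw [hkn] at h1
    refine ⟨fun a ha => (h1.1 a ha).1, h1.2, ?_⟩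
    intro a ha
    have ha' : a < n + 1 := by omega
    have h2 := hI k a hkB (by rw [hkn]; exact ha)
    have h3 : I k a = c ⟨a, ha'⟩ := congrFun hkc ⟨a, ha'⟩
    rw [h3] at h2
    simp only [ha', dif_pos]
    rw [sub_apply] at h2
    exact h2

end Pool.Agent.DD
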