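import Mathlib

/-!
# Row dd-L1a : from a lower `ℓ₁` estimate to an embedding of `ℓ₁`

`l1_embeds`: `T x = ∑' i, x i • f i` (summable: `‖x i • f i‖ ≤ |x i|`, `∑ |x i| = ‖x‖` by `lp.norm_eq_tsum_rpow`/`lp.hasSum_norm` with `p = 1`); linear,
`‖T x‖ ≤ ‖x‖` (`LinearMap.mkContinuous`); lower bound: pass to the limit `k → ∞` in `h k x`.
`pattern_lower`: given `k, a` take `σ i = decide (a i < 0)` and `q`; `σ' = !σ` and `q'`.  `(q - q') (∑ a i • f i) = ∑ a i (q (f i) - q' (f i)) ≥ ∑ |a i| d` (for `a i ≥ 0`: `σ i = false`: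
`q (f i) ≥ r + d`, `q' (f i) ≤ r`; for `a i < 0` the other way round) and `|(q - q') v| ≤ 2 ‖v‖`.
-/

set_option autoImplicit false

open scoped BigOperators Topology
open Set Filter MeasureTheory

namespace Pool.Agent.DD

private theorem L1a_hasSum (x : lp (fun _ : ℕ => ℝ) 1) : HasSum (fun i => |x i|) ‖x‖ := by
  have h := lp.hasSum_norm (p := 1) (by norm_num) x
  simpa using h

theorem l1_embeds {X : Type*} [NormedAddCommGroup X] [NormedSpace ℝ X] [CompleteSpace X] (f : ℕ → X)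
    (hf : ∀ i, ‖f i‖ ≤ 1) {c : ℝ} (hc : 0 < c)
    (h : ∀ (k : ℕ) (a : ℕ → ℝ),
      c * ∑ i ∈ Finset.range k, |a i| ≤ ‖∑ i ∈ Finset.range k, a i • f i‖) :
    ∃ T : (lp (fun _ : ℕ => ℝ) 1) →L[ℝ] X, ∃ c : ℝ, 0 < c ∧ ∀ x, c * ‖x‖ ≤ ‖T x‖ := by
  have hb : ∀ (x : lp (fun _ : ℕ => ℝ) 1) (i : ℕ), ‖x i • f i‖ ≤ |x i| := by
    intro x i
    rw [norm_smul, Real.norm_eq_abs]
    exact mul_le_of_le_one_right (abs_nonneg _) (hf i)
  have hn : ∀ x : lp (fun _ : ℕ => ℝ) 1, Summable (fun i => ‖x i • f i‖) := fun x =>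
    Summable.of_nonneg_of_le (fun _ => norm_nonneg _) (hb x) (L1a_hasSum x).summable
  have hs : ∀ x : lp (fun _ : ℕ => ℝ) 1, Summable (fun i => x i • f i) := fun x => (hn x).of_norm
  let L : (lp (fun _ : ℕ => ℝ) 1) →ₗ[ℝ] X :=
    { toFun := fun x => ∑' i, x i • f i
      map_add' := by
        intro x y
        rw [← (hs x).tsum_add (hs y)]
        refine tsum_congr fun i => ?_
        rw [lp.coeFn_add, Pi.add_apply, add_smul]
      map_smul' := by
        intro r x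
        rw [RingHom.id_apply, ← (hs x).tsum_const_smul r]
        refine tsum_congr fun i => ?_
        rw [lp.coeFn_smul, Pi.smul_apply, smul_eq_mul, mul_smul] }
  have hL : ∀ x, L x = ∑' i, x i • f i := fun x => rfl
  refine ⟨L.mkContinuous 1 ?_, c, hc, ?_⟩
  · intro x
    rw [hL, one_mul, ← (L1a_hasSum x).tsum_eq]
    refine (norm_tsum_le_tsum_norm (hn x)).trans ?_
    exact (hn x).tsum_le_tsum (hb x) (L1a_hasSum x).summable
  · intro x
    rw [LinearMap.mkContinuous_apply, hL]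
    have h1 : Tendsto (fun k => c * ∑ i ∈ Finset.range k, |x i|) atTop (𝓝 (c * ‖x‖)) :=
      (L1a_hasSum x).tendsto_sum_nat.const_mul c
    have h2 : Tendsto (fun k => ‖∑ i ∈ Finset.range k, x i • f i‖) atTop (𝓝 ‖∑' i, x i • f i‖) :=
      (hs x).hasSum.tendsto_sum_nat.norm
    exact le_of_tendsto_of_tendsto' h1 h2 (fun k => h k x)

end Pool.Agent.DD
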