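import Mathlib

/-!
# Row dd-L1b : from a lower `ℓ₁` estimate to an embedding of `ℓ₁`

`l1_embeds`: `T x = ∑' i, x i • f i` (summable: `‖x i • f i‖ ≤ |x i|`, `∑ |x i| = ‖x‖` by `lp.norm_eq_tsum_rpow`/`lp.hasSum_norm` with `p = 1`); linear,
`‖T x‖ ≤ ‖x‖` (`LinearMap.mkContinuous`); lower bound: pass to the limit `k → ∞` in `h k x`.
`pattern_lower`: given `k, a` take `σ i = decide (a i < 0)` and `q`; `σ' = !σ` and `q'`.  `(q - q') (∑ a i • f i) = ∑ a i (q (f i) - q' (f i)) ≥ ∑ |a i| d` (for `a i ≥ 0`: `σ i = false`: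
`q (f i) ≥ r + d`, `q' (f i) ≤ r`; for `a i < 0` the other way round) and `|(q - q') v| ≤ 2 ‖v‖`.
-/

set_option autoImplicit false

open scoped BigOperators Topology
open Set Filter MeasureTheory

namespace Pool.Agent.DD

theorem pattern_lower {X : Type*} [NormedAddCommGroup X] [NormedSpace ℝ X] (f : ℕ → X) {r d : ℝ}
    (h : ∀ (k : ℕ) (σ : ℕ → Bool), ∃ q : X →L[ℝ] ℝ, ‖q‖ ≤ 1 ∧ ∀ i < k,
      (σ i = false → r + d ≤ q (f i)) ∧ (σ i = true → q (f i) ≤ r)) (k : ℕ) (a : ℕ → ℝ) :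
    (d / 2) * ∑ i ∈ Finset.range k, |a i| ≤ ‖∑ i ∈ Finset.range k, a i • f i‖ := by
  obtain ⟨q, hq, h1⟩ := h k (fun i => decide (a i < 0))
  obtain ⟨q', hq', h2⟩ := h k (fun i => !decide (a i < 0))
  have hv : ∀ p : X →L[ℝ] ℝ, p (∑ i ∈ Finset.range k, a i • f i)
      = ∑ i ∈ Finset.range k, a i * p (f i) := by
    intro p
    rw [map_sum]
    exact Finset.sum_congr rfl fun i _ => by rw [map_smul, smul_eq_mul]
  have key : d * ∑ i ∈ Finset.range k, |a i| ≤
      q (∑ i ∈ Finset.range k, a i • f i) - q' (∑ i ∈ Finset.range k, a i • f i) := by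
    rw [hv, hv, ← Finset.sum_sub_distrib, Finset.mul_sum]
    refine Finset.sum_le_sum fun i hi => ?_
    obtain ⟨h1a, h1b⟩ := h1 i (Finset.mem_range.1 hi)
    obtain ⟨h2a, h2b⟩ := h2 i (Finset.mem_range.1 hi)
    by_cases hneg : a i < 0
    · have e1 := h1b (by simpa using hneg)
      have e2 := h2a (by simpa using hneg)
      rw [abs_of_neg hneg]
      nlinarith
    · have hpos : 0 ≤ a i := not_lt.1 hneg
      have e1 := h1a (by simpa using hpos)
      have e2 := h2b (by simpa using hpos)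
      rw [abs_of_nonneg hpos]
      nlinarith
  have hb1 : q (∑ i ∈ Finset.range k, a i • f i) ≤ ‖∑ i ∈ Finset.range k, a i • f i‖ := by
    refine (le_abs_self _).trans ?_
    rw [← Real.norm_eq_abs]
    refine (q.le_opNorm _).trans ?_
    exact mul_le_of_le_one_left (norm_nonneg _) hq
  have hb2 : -q' (∑ i ∈ Finset.range k, a i • f i) ≤ ‖∑ i ∈ Finset.range k, a i • f i‖ := by
    refine (neg_le_abs _).trans ?_
    rw [← Real.norm_eq_abs]
    refine (q'.le_opNorm _).trans ?_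
    exact mul_le_of_le_one_left (norm_nonneg _) hq'
  linarith

end Pool.Agent.DD
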