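import Pool.Agent.Lib.MP_dd9902_an.T1a

/-!
# Row dd-T1b : elementary properties of `comp`

All by induction on `i` (generalising `t`).  `comp_split` : induction on `i`; for `i = j` take `y = t`.
`tree_osc` is (iv): `comp i t = comp (j+1) y` with `y ∈ A (j+1)` and `T.osc`.
-/

set_option autoImplicit false

open scoped BigOperators Topology
open Set Filter MeasureTheory

namespace Pool.Agent.DD

variable {X : Type*} [NormedAddCommGroup X] [NormedSpace ℝ X] {ε : ℝ} {η : ℕ → ℝ} (T : Tree X ε η)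

theorem tree_osc {m : ℕ → ℕ} (hm : ∀ i, m i ≤ T.n i) (S : ℕ → Bool) {i j : ℕ} (h : j < i)
    {t s : X →L[ℝ] ℝ} (ht : t ∈ T.A i) (hs : s ∈ T.A (j + 1)) :
    |comp T.ψ m S i t (T.f j (m j)) - comp T.ψ m S (j + 1) s (T.f j (m j))| ≤ η j := by
  obtain ⟨y, hy, hyt⟩ := comp_split T hm S (Nat.succ_le_of_lt h) ht
  rw [hyt]
  exact T.osc j m S hm y hy s hs

end Pool.Agent.DD
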