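import Pool.Agent.Lib.MP_dd9902_an.U1b

/-!
# Row dd-U2 : the independence lemma of section 5

Proof. `s = {j | δ ≤ coin.real (G j)}`; `hf` says `(atTop ⊓ 𝓟 s).NeBot`; let `U = Ultrafilter.of (atTop ⊓ 𝓟 s)`.  `univ` is large.
Build `J` recursively: a state is a natural number `N` (strict upper bound of the indices chosen so far) and a finite set `F` of large sets, each depending on the
coordinates `< N`; next index: `i ≥ N` such that `V ∩ G i ∩ {S | S i = b}` is large for all `V ∈ F`, `b : Bool` (`large_step`, finite intersection of `U`-large sets: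
`Filter.eventually_all_finite`), new state `(i + 1, {V ∩ G i ∩ {S i = b}})`.
Alternatively: let `V : List Bool → Set`, `V [] = univ`.  For `k` and `σ` the set `V_σ|k = ⋂_{i<k} G (J i) ∩ {S | S (J i) = σ i}` is large, in particular nonempty
(a large set has `coin.real (G j ∩ V) > 0` for some `j`).
-/

set_option autoImplicit false

open scoped BigOperators Topology
open Set Filter MeasureTheory

namespace Pool.Agent.DD

/-- The property of the states of the recursive construction. -/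
def U2_P (U : Ultrafilter ℕ) (G : ℕ → Set (ℕ → Bool)) (s : ℕ × Set (Set (ℕ → Bool))) : Prop :=
  s.2.Finite ∧ ∀ V ∈ s.2, Large U G V ∧
    ∀ S S' : ℕ → Bool, (∀ l < s.1, S l = S' l) → (S ∈ V ↔ S' ∈ V)

/-- The next family. -/
def U2_next (G : ℕ → Set (ℕ → Bool)) (F : Set (Set (ℕ → Bool))) (i : ℕ) : Set (Set (ℕ → Bool)) :=
  ⋃ b : Bool, (fun V => V ∩ G i ∩ {S | S i = b}) '' F

theorem U2_step {U : Ultrafilter ℕ} (hU : (U : Filter ℕ) ≤ atTop) {G : ℕ → Set (ℕ → Bool)}
    (hG : ∀ (j : ℕ) (S S' : ℕ → Bool), (∀ l < j, S l = S' l) → (S ∈ G j ↔ S' ∈ G j))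
    (s : ℕ × Set (Set (ℕ → Bool))) (hs : U2_P U G s) :
    ∃ i : ℕ, s.1 ≤ i ∧ U2_P U G (i + 1, U2_next G s.2 i) := by
  have h1 : ∀ᶠ i in (U : Filter ℕ), ∀ V ∈ s.2, ∀ b : Bool,
      Large U G (V ∩ G i ∩ {S | S i = b}) := by
    rw [Filter.eventually_all_finite hs.1]
    intro V hV
    rw [Filter.eventually_all]
    intro b
    exact large_step hU hG (N := s.1) (hs.2 V hV).2 (hs.2 V hV).1 b
  have h2 : ∀ᶠ i in (U : Filter ℕ), s.1 ≤ i := hU (eventually_ge_atTop s.1)
  obtain ⟨i, hi1, hi2⟩ := (h1.and h2).exists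
  refine ⟨i, hi2, ?_, ?_⟩
  · exact Set.finite_iUnion (fun b => hs.1.image _)
  · intro W hW
    simp only [U2_next, Set.mem_iUnion, Set.mem_image] at hW
    obtain ⟨b, V, hV, rfl⟩ := hW
    refine ⟨hi1 V hV b, ?_⟩
    intro S S' hSS
    have e1 : S ∈ V ↔ S' ∈ V := (hs.2 V hV).2 S S' (fun l hl => hSS l (by
      show l < i + 1
      omega))
    have e2 : S ∈ G i ↔ S' ∈ G i := hG i S S' (fun l hl => hSS l (by
      show l < i + 1
      omega))
    have e3 : S i = S' i := hSS i (Nat.lt_succ_self i)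
    simp only [Set.mem_inter_iff, Set.mem_ofPred_eq, e1, e2, e3]

theorem independent {G : ℕ → Set (ℕ → Bool)}
    (hG : ∀ (j : ℕ) (S S' : ℕ → Bool), (∀ l < j, S l = S' l) → (S ∈ G j ↔ S' ∈ G j))
    {δ : ℝ} (hδ : 0 < δ) (hf : ∃ᶠ j in atTop, δ ≤ coin.real (G j)) :
    ∃ J : ℕ → ℕ, StrictMono J ∧ ∀ (k : ℕ) (σ : ℕ → Bool), ∃ S : ℕ → Bool,
      ∀ i < k, S ∈ G (J i) ∧ S (J i) = σ i := by
  classical
  set s : Set ℕ := {j | δ ≤ coin.real (G j)} with hs
  have hne : (atTop ⊓ 𝓟 s).NeBot := by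
    rw [← Filter.frequently_mem_iff_neBot]
    exact hf
  let U : Ultrafilter ℕ := @Ultrafilter.of ℕ (atTop ⊓ 𝓟 s) hne
  have hUle : (U : Filter ℕ) ≤ atTop ⊓ 𝓟 s := @Ultrafilter.of_le ℕ (atTop ⊓ 𝓟 s) hne
  have hU : (U : Filter ℕ) ≤ atTop := hUle.trans inf_le_left
  have hUs : ∀ᶠ j in (U : Filter ℕ), δ ≤ coin.real (G j) := by
    have : s ∈ (U : Filter ℕ) := (hUle.trans inf_le_right) (Filter.mem_principal_self s)
    exact this
  have hLuniv : Large U G Set.univ := by
    refine ⟨δ, hδ, ?_⟩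
    filter_upwards [hUs] with j hj
    rw [Set.inter_univ]
    exact hj
  have h0 : U2_P U G (0, {Set.univ}) := by
    refine ⟨Set.finite_singleton _, ?_⟩
    intro V hV
    have hV' : V = Set.univ := hV
    subst hV'
    exact ⟨hLuniv, fun S S' _ => by simp⟩
  choose nx hnx1 hnx2 using U2_step hU hG
  let st : ℕ → {s : ℕ × Set (Set (ℕ → Bool)) // U2_P U G s} := fun n =>
    Nat.rec ⟨(0, {Set.univ}), h0⟩
      (fun _ s => ⟨(nx s.1 s.2 + 1, U2_next G s.1.2 (nx s.1 s.2)), hnx2 s.1 s.2⟩) n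
  have hst : ∀ n, (st (n + 1)).1 =
      (nx (st n).1 (st n).2 + 1, U2_next G (st n).1.2 (nx (st n).1 (st n).2)) := fun n => rfl
  have hst0 : (st 0).1 = (0, {Set.univ}) := rfl
  refine ⟨fun n => nx (st n).1 (st n).2, ?_, ?_⟩
  · apply strictMono_nat_of_lt_succ
    intro n
    have h1 := hnx1 (st (n + 1)).1 (st (n + 1)).2
    have h2 : (st (n + 1)).1.1 = nx (st n).1 (st n).2 + 1 := by rw [hst n]
    rw [h2] at h1
    exact h1
  · intro k σ
    have key : ∀ k : ℕ, ∃ V ∈ (st k).1.2, ∀ S ∈ V, ∀ i < k,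
        S ∈ G (nx (st i).1 (st i).2) ∧ S (nx (st i).1 (st i).2) = σ i := by
      intro k
      induction k with
      | zero =>
        refine ⟨Set.univ, ?_, fun S _ i hi => absurd hi (Nat.not_lt_zero i)⟩
        rw [hst0]
        exact Set.mem_singleton _
      | succ k ih =>
        obtain ⟨V, hV, hVS⟩ := ih
        refine ⟨V ∩ G (nx (st k).1 (st k).2) ∩ {S | S (nx (st k).1 (st k).2) = σ k}, ?_, ?_⟩
        · rw [hst k]
          simp only [U2_next, Set.mem_iUnion, Set.mem_image]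
          exact ⟨σ k, V, hV, rfl⟩
        · intro S hS i hi
          rcases Nat.lt_succ_iff_lt_or_eq.mp hi with h | h
          · exact hVS S hS.1.1 i h
          · subst h
            exact ⟨hS.1.2, hS.2⟩
    obtain ⟨V, hV, hVS⟩ := key k
    obtain ⟨γ, hγ, hj⟩ := ((st k).2.2 V hV).1
    obtain ⟨j, hj⟩ := hj.exists
    have hne2 : (G j ∩ V).Nonempty := by
      rw [Set.nonempty_iff_ne_empty]
      intro h
      rw [h, measureReal_empty] at hj
      linarith
    obtain ⟨S, hS⟩ := hne2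
    exact ⟨S, hVS S hS.2⟩

end Pool.Agent.DD
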