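import Pool.Agent.Lib.MP_dd9902_an.A3
import Pool.Agent.Lib.MP_dd9902_an.A4
import Pool.Agent.Lib.MP_dd9902_an.U2
import Pool.Agent.Lib.MP_dd9902_an.L1a
import Pool.Agent.Lib.MP_dd9902_an.L1b
import Pool.Agent.Lib.MP_dd9902_an.T1b

/-!
# Row dd-M1 : a tree gives `ℓ₁` (section 6)

Proof. Choose `t j ∈ A (j+1)` (`T.ne`).  `exists_level` gives `r, δ`; `exists_section` (`Pset` is measurable) gives `m` with
`G j = {S | (m,S) ∈ Pset T j (t j) r}` of measure `≥ δ/2` for infinitely many `j`; `G j` depends on the coordinates `< j` (`comp_congr`).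
`independent` gives `J`.  Put `F i = T.f (J i) (toN m (J i))`, `‖F i‖ ≤ 1`.  Apply `pattern_lower` with level `r + ε/64` and `d = ε/8 - ε/32`:
for `k = 0` take `q = 0`; for `k ≥ 1` and `σ` let `S` be as in `independent`, `i₀ = J (k-1) + 1`, `q = comp i₀ (t (J (k-1)))`, which has norm `≤ 1` (`comp_norm_le`).
For `i < k`, `j = J i`, `j < i₀`: `tree_osc` with `s = t j`: `|q (F i) - comp (j+1) (t j) (F i)| ≤ η j ≤ ε/64` (`η j ≤ ∑_{l<j+1} η l`), and
`comp (j+1) (t j) = comp j (t j)` if `S j = σ i = false` (value `≥ r + ε/8`), `= comp j (ψ j (m j) (t j))` if `σ i = true` (value `≤ r`).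
Then `l1_embeds`.
-/

set_option autoImplicit false

open scoped BigOperators Topology
open Set Filter MeasureTheory

namespace Pool.Agent.DD

variable {X : Type*} [NormedAddCommGroup X] [NormedSpace ℝ X] [CompleteSpace X] {ε : ℝ} {η : ℕ → ℝ}

theorem l1_of_tree (T : Tree X ε η) (hε : 0 < ε) (hη : ∀ j, 0 ≤ η j)
    (hs : ∀ N, ∑ l ∈ Finset.range N, η l ≤ ε / 64) :
    ∃ T : (lp (fun _ : ℕ => ℝ) 1) →L[ℝ] X, ∃ c : ℝ, 0 < c ∧ ∀ x, c * ‖x‖ ≤ ‖T x‖ := by
  have hs8 : ∀ N, ∑ l ∈ Finset.range N, η l ≤ ε / 8 := fun N => (hs N).trans (by linarith)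
  have hex : ∀ j, ∃ t : X →L[ℝ] ℝ, t ∈ T.A (j + 1) := fun j => T.ne (j + 1)
  choose t ht using hex
  obtain ⟨r, δ, hδ, hfreq⟩ := exists_level T hε hη hs8 t ht
  obtain ⟨m, hm⟩ := exists_section (muM T.n) coin (fun j => Pset T j (t j) r)
    (fun j => measurableSet_Pset T j (t j) r) hδ hfreq
  have hG : ∀ (j : ℕ) (S S' : ℕ → Bool), (∀ l < j, S l = S' l) →
      (S ∈ {s : ℕ → Bool | (m, s) ∈ Pset T j (t j) r} ↔
        S' ∈ {s : ℕ → Bool | (m, s) ∈ Pset T j (t j) r}) := by
    intro j S S' hSS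
    have e1 := comp_congr T.ψ (m := toN m) (m' := toN m) (fun _ _ => rfl) hSS (t j)
    have e2 := comp_congr T.ψ (m := toN m) (m' := toN m) (fun _ _ => rfl) hSS
      (T.ψ j (toN m j) (t j))
    simp only [Set.mem_setOf_eq, Pset]
    rw [e1, e2]
  obtain ⟨J, hJ, hind⟩ := independent hG (half_pos hδ) hm
  have hF : ∀ i, ‖T.f (J i) (toN m (J i))‖ ≤ 1 := fun i => T.fnorm _ _ (toN_le m _)
  have hpat : ∀ (k : ℕ) (σ : ℕ → Bool), ∃ q : X →L[ℝ] ℝ, ‖q‖ ≤ 1 ∧ ∀ i < k,
      (σ i = false → (r + ε / 64) + (ε / 8 - ε / 32) ≤ q (T.f (J i) (toN m (J i)))) ∧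
        (σ i = true → q (T.f (J i) (toN m (J i))) ≤ r + ε / 64) := by
    intro k σ
    cases k with
    | zero =>
      refine ⟨0, by simp, ?_⟩
      intro i hi
      exact absurd hi (Nat.not_lt_zero _)
    | succ k =>
      obtain ⟨S, hS⟩ := hind (k + 1) σ
      refine ⟨comp T.ψ (toN m) S (J k + 1) (t (J k)), comp_norm_le T (toN_le m) S (ht (J k)), ?_⟩
      intro i hi
      obtain ⟨hSG, hSσ⟩ := hS i hi
      have hji : J i < J k + 1 := Nat.lt_succ_of_le (hJ.monotone (Nat.le_of_lt_succ hi))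
      have hosc := tree_osc T (toN_le m) S hji (ht (J k)) (ht (J i))
      have hη' : η (J i) ≤ ε / 64 := by
        refine le_trans ?_ (hs (J i + 1))
        exact Finset.single_le_sum (f := η) (fun l _ => hη l)
          (Finset.mem_range.mpr (Nat.lt_succ_self _))
      have hab := abs_le.mp (hosc.trans hη')
      have hc : comp T.ψ (toN m) S (J i + 1) (t (J i)) =
          comp T.ψ (toN m) S (J i) (if S (J i) then T.ψ (J i) (toN m (J i)) (t (J i)) else t (J i)) :=
        rfl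
      obtain ⟨g1, g2⟩ := hSG
      constructor
      · intro hσ
        rw [hSσ, hσ] at hc
        simp only [Bool.false_eq_true, if_false] at hc
        rw [hc] at hab
        simp only at g1
        linarith [hab.1]
      · intro hσ
        rw [hSσ, hσ] at hc
        simp only [if_true] at hc
        rw [hc] at hab
        simp only at g2
        linarith [hab.2]
  have hd : 0 < (ε / 8 - ε / 32) / 2 := by linarith
  exact l1_embeds _ hF hd (fun k a => pattern_lower _ hpat k a)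

end Pool.Agent.DD
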