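import Pool.Agent.Lib.MP_dd9902_an.Defs

/-!
# Row dd-R5 : the gauge norm

Proof. `B = {x | Θ x ≤ 1}` is convex, symmetric, closed (`Θ` is continuous by `hlip`), contains `closedBall 0 (1/4)` and is
contained in `closedBall 0 1`.  `N = gauge B`: `gauge_add_le`, `gauge_smul` (balanced/symmetric), `gauge_le_of_subset_smul..`,
`‖x‖ ≤ N x ≤ 4 ‖x‖`.  If `N x = 1` then `Θ x ≤ 1` (`B` closed: `gauge_le_one_iff_mem_closure`/`mem_closure`), and if `Θ x < 1` then, `Θ`
being continuous, `Θ (s • x) ≤ 1` for some `s > 1`, so `N x ≤ 1/s < 1`, contradiction.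
-/

set_option autoImplicit false

open scoped BigOperators Topology
open Set Filter MeasureTheory

namespace Pool.Agent.DD

variable {Z : Type*} [NormedAddCommGroup Z] [NormedSpace ℝ Z]

omit [NormedSpace ℝ Z] in
private theorem R5_cont {Θ : Z → ℝ}
    (hlip : ∀ R : ℝ, ∃ L : ℝ, ∀ x y : Z, ‖x‖ ≤ R → ‖y‖ ≤ R → |Θ x - Θ y| ≤ L * ‖x - y‖) :
    Continuous Θ := by
  rw [continuous_iff_continuousAt]
  intro x
  obtain ⟨L, hL⟩ := hlip (‖x‖ + 1)
  rw [ContinuousAt, tendsto_iff_dist_tendsto_zero]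
  have h0 : Tendsto (fun y : Z => L * ‖y - x‖) (𝓝 x) (𝓝 0) := by
    have h1 : Tendsto (fun y : Z => L * ‖y - x‖) (𝓝 x) (𝓝 (L * ‖x - x‖)) := by
      apply Continuous.tendsto
      fun_prop
    simpa using h1
  refine squeeze_zero' (Eventually.of_forall fun y => dist_nonneg) ?_ h0
  have hb : Metric.ball x 1 ∈ 𝓝 x := Metric.ball_mem_nhds x one_pos
  filter_upwards [hb] with y hy
  rw [Real.dist_eq]
  refine hL y x ?_ (by linarith)
  have h2 : ‖y - x‖ < 1 := by
    rw [← dist_eq_norm]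
    exact hy
  have h3 : ‖y‖ ≤ ‖y - x‖ + ‖x‖ := by
    have := norm_add_le (y - x) x
    simpa using this
  linarith

theorem gauge_norm {Θ : Z → ℝ} (hconv : ConvexOn ℝ univ Θ) (heven : ∀ x, Θ (-x) = Θ x)
    (hlip : ∀ R : ℝ, ∃ L : ℝ, ∀ x y : Z, ‖x‖ ≤ R → ‖y‖ ≤ R → |Θ x - Θ y| ≤ L * ‖x - y‖)
    (hlow : ∀ x, ‖x‖ ^ 2 ≤ Θ x) (hup : ∀ x, ‖x‖ ≤ 1 / 4 → Θ x ≤ 1 / 2) :
    ∃ N : Z → ℝ, (∀ x, ‖x‖ ≤ N x ∧ N x ≤ 4 * ‖x‖) ∧ (∀ x y, N (x + y) ≤ N x + N y) ∧
      (∀ (t : ℝ) (x : Z), N (t • x) = |t| * N x) ∧ (∀ x, N x = 1 → Θ x = 1) := by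
  have hcont := R5_cont hlip
  set B : Set Z := {x | Θ x ≤ 1} with hB
  have hBconv : Convex ℝ B := by
    have := hconv.convex_le 1
    simpa [hB] using this
  have hBclosed : IsClosed B := isClosed_le hcont continuous_const
  have hball : Metric.closedBall (0 : Z) (1 / 4) ⊆ B := by
    intro x hx
    have h1 : ‖x‖ ≤ 1 / 4 := by simpa using hx
    have := hup x h1
    show Θ x ≤ 1
    linarith
  have hB0 : B ∈ 𝓝 (0 : Z) :=
    mem_of_superset (Metric.closedBall_mem_nhds (0 : Z) (by norm_num : (0 : ℝ) < 1 / 4)) hball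
  have habs : Absorbent ℝ B := absorbent_nhds_zero hB0
  have hBsub : B ⊆ Metric.closedBall (0 : Z) 1 := by
    intro x hx
    have h1 : Θ x ≤ 1 := hx
    have h2 := hlow x
    have h3 : ‖x‖ ≤ 1 := by nlinarith [norm_nonneg x]
    simpa using h3
  have hsymm : ∀ x ∈ B, -x ∈ B := by
    intro x hx
    show Θ (-x) ≤ 1
    rw [heven]
    exact hx
  refine ⟨gauge B, ?_, ?_, ?_, ?_⟩
  · intro x
    constructor
    · have h1 := gauge_mono habs hBsub x
      rw [gauge_closedBall zero_le_one] at h1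
      simpa using h1
    · have h1 := gauge_mono (absorbent_nhds_zero
        (Metric.closedBall_mem_nhds (0 : Z) (by norm_num : (0 : ℝ) < 1 / 4))) hball x
      rw [gauge_closedBall (by norm_num : (0 : ℝ) ≤ 1 / 4)] at h1
      calc gauge B x ≤ ‖x‖ / (1 / 4) := h1
        _ = 4 * ‖x‖ := by ring
  · intro x y
    exact gauge_add_le hBconv habs x y
  · intro t x
    rcases le_total 0 t with ht | ht
    · rw [gauge_smul_of_nonneg ht, abs_of_nonneg ht, smul_eq_mul]
    · have h1 : t • x = -((-t) • x) := by simp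
      rw [h1, gauge_neg hsymm, gauge_smul_of_nonneg (by linarith : (0 : ℝ) ≤ -t),
        abs_of_nonpos ht, smul_eq_mul]
  · intro x hx
    have h1 : Θ x ≤ 1 := by
      have h2 : x ∈ closure B := (gauge_le_one_iff_mem_closure hBconv hB0).1 hx.le
      rw [hBclosed.closure_eq] at h2
      exact h2
    refine le_antisymm h1 ?_
    by_contra h3
    push Not at h3
    have h4 : x ∈ interior B := by
      refine mem_interior.2 ⟨{y | Θ y < 1}, ?_, isOpen_lt hcont continuous_const, h3⟩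
      intro y hy
      have hy' : Θ y < 1 := hy
      exact hy'.le
    have h5 := (gauge_lt_one_iff_mem_interior hBconv hB0).2 h4
    linarith

end Pool.Agent.DD
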