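import Pool.Agent.Lib.MP_dd9902_an.Defs

/-!
# Row dd-R5b : from the norm to the defect of `Θ`

Proof. `Θ f = 1`.  Put `s n = N (g n) → 1`; eventually `s n > 1/2`, `N ((s n)⁻¹ • g n) = 1`, so `Θ ((s n)⁻¹ • g n) = 1`, the points are bounded
(`‖g n‖ ≤ N (g n) ≤ 2`, `‖(s n)⁻¹ • g n‖ ≤ 1`), and `|Θ (g n) - 1| ≤ L ‖g n - (s n)⁻¹ • g n‖ ≤ L * 2 * |1 - (s n)⁻¹| → 0`.
In the same way `Θ ((1/2) • (f + g n)) → 1` because `N ((1/2) • (f + g n)) → 1`.  So the defect tends to `1/2 + 1/2 - 1 = 0`.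
-/

set_option autoImplicit false

open scoped BigOperators Topology
open Set Filter MeasureTheory

namespace Pool.Agent.DD

variable {Z : Type*} [NormedAddCommGroup Z] [NormedSpace ℝ Z]

private theorem R5b_key {Θ N : Z → ℝ}
    (hlip : ∀ R : ℝ, ∃ L : ℝ, ∀ x y : Z, ‖x‖ ≤ R → ‖y‖ ≤ R → |Θ x - Θ y| ≤ L * ‖x - y‖)
    (hN : ∀ x, ‖x‖ ≤ N x) (hhom : ∀ (t : ℝ) (x : Z), N (t • x) = |t| * N x)
    (h1 : ∀ x, N x = 1 → Θ x = 1) {h : ℕ → Z}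
    (hh : Tendsto (fun n => N (h n)) atTop (𝓝 1)) :
    Tendsto (fun n => Θ (h n)) atTop (𝓝 1) := by
  obtain ⟨L, hL⟩ := hlip 2
  rw [tendsto_iff_norm_sub_tendsto_zero]
  have hinv : Tendsto (fun n => (N (h n))⁻¹) atTop (𝓝 1) := by
    simpa using hh.inv₀ one_ne_zero
  have hb : Tendsto (fun n => |L| * (2 * |1 - (N (h n))⁻¹|)) atTop (𝓝 0) := by
    have h2 : Tendsto (fun n => 1 - (N (h n))⁻¹) atTop (𝓝 (1 - 1)) := tendsto_const_nhds.sub hinv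
    have h3 := ((h2.abs).const_mul 2).const_mul |L|
    simpa using h3
  refine squeeze_zero' (Eventually.of_forall fun n => norm_nonneg _) ?_ hb
  have e1 : ∀ᶠ n in atTop, 1 / 2 < N (h n) := hh.eventually (lt_mem_nhds (by norm_num))
  have e2 : ∀ᶠ n in atTop, N (h n) < 2 := hh.eventually (gt_mem_nhds (by norm_num))
  filter_upwards [e1, e2] with n hn1 hn2
  have hpos : 0 < N (h n) := by linarith
  have hNy : N ((N (h n))⁻¹ • h n) = 1 := by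
    rw [hhom, abs_of_pos (inv_pos.mpr hpos), inv_mul_cancel₀ hpos.ne']
  have hTy := h1 _ hNy
  have hb1 : ‖h n‖ ≤ 2 := (hN _).trans hn2.le
  have hb2 : ‖(N (h n))⁻¹ • h n‖ ≤ 2 := by
    have := hN ((N (h n))⁻¹ • h n)
    rw [hNy] at this
    linarith
  have hle := hL _ _ hb1 hb2
  rw [hTy] at hle
  rw [Real.norm_eq_abs]
  refine hle.trans ?_
  have h4 : h n - (N (h n))⁻¹ • h n = (1 - (N (h n))⁻¹) • h n := by
    rw [sub_smul, one_smul]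
  rw [h4, norm_smul, Real.norm_eq_abs]
  have h5 : |1 - (N (h n))⁻¹| * ‖h n‖ ≤ 2 * |1 - (N (h n))⁻¹| := by
    rw [mul_comm]
    exact mul_le_mul_of_nonneg_right hb1 (abs_nonneg _)
  calc L * (|1 - (N (h n))⁻¹| * ‖h n‖) ≤ |L| * (|1 - (N (h n))⁻¹| * ‖h n‖) :=
        mul_le_mul_of_nonneg_right (le_abs_self L) (by positivity)
    _ ≤ |L| * (2 * |1 - (N (h n))⁻¹|) := mul_le_mul_of_nonneg_left h5 (abs_nonneg L)

theorem defect_tendsto {Θ N : Z → ℝ}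
    (hlip : ∀ R : ℝ, ∃ L : ℝ, ∀ x y : Z, ‖x‖ ≤ R → ‖y‖ ≤ R → |Θ x - Θ y| ≤ L * ‖x - y‖)
    (hN : ∀ x, ‖x‖ ≤ N x) (hhom : ∀ (t : ℝ) (x : Z), N (t • x) = |t| * N x)
    (h1 : ∀ x, N x = 1 → Θ x = 1) {f : Z} {g : ℕ → Z} (hf : N f = 1)
    (hg : Tendsto (fun n => N (g n)) atTop (𝓝 1)) (hfg : Tendsto (fun n => N (f + g n)) atTop (𝓝 2)) :
    Tendsto (fun n => defect Θ f (g n)) atTop (𝓝 0) := by
  have k1 := R5b_key hlip hN hhom h1 hg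
  have h2 : Tendsto (fun n => N ((1 / 2 : ℝ) • (f + g n))) atTop (𝓝 1) := by
    have h3 : (fun n => N ((1 / 2 : ℝ) • (f + g n))) = fun n => (1 / 2 : ℝ) * N (f + g n) := by
      funext n
      rw [hhom, abs_of_pos (by norm_num : (0 : ℝ) < 1 / 2)]
    rw [h3]
    have h4 := hfg.const_mul (1 / 2 : ℝ)
    have h5 : (1 / 2 : ℝ) * 2 = 1 := by norm_num
    rwa [h5] at h4
  have k2 := R5b_key hlip hN hhom h1 h2
  have h6 := ((k1.const_mul (1 / 2 : ℝ)).const_add ((1 / 2 : ℝ) * Θ f)).sub k2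
  have h7 : (1 / 2 : ℝ) * Θ f + 1 / 2 * 1 - 1 = 0 := by
    rw [h1 f hf]; norm_num
  rw [h7] at h6
  exact h6

end Pool.Agent.DD
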