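import Pool.Agent.Lib.MP_dd9902_an.Defs

/-!
# Row dd-R6 : the sum of countably many convex functions

Proof. `c i = (1/2)^(i+1)/100`, `∑ c i = 1/100`, `Θ x = ‖x‖² + ∑' i, c i * (th i x + th i (-x))`.  Summable by comparison with
`c i * 4 (1+‖x‖)²`.  Convex: termwise (`‖·‖²` is convex; `x ↦ th i (-x)` is convex; `tsum_le_tsum`).  Even: clear.  Lipschitz on balls:
`|‖x‖² - ‖y‖²| ≤ 2R ‖x-y‖` and `(1/100) * 2 * 4(1+R) ‖x-y‖` (for `R < 0` there is nothing to show).  `‖x‖² ≤ Θ x` since the terms are `≥ 0`.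
`‖x‖ ≤ 1/4`: `Θ x ≤ 1/16 + (1/100) * 4 * (5/4)² ≤ 1/2`.  Defects are `≥ 0` for convex functions and linear in the function, so
`c i * defect (th i) x y ≤ defect Θ x y` (all other terms have nonnegative defect): `C = 1 / c i`.
-/

set_option autoImplicit false

open scoped BigOperators Topology
open Set Filter MeasureTheory

namespace Pool.Agent.DD

variable {Z : Type*} [NormedAddCommGroup Z] [NormedSpace ℝ Z]

private theorem R6_defect_nonneg {F : Z → ℝ} (hF : ConvexOn ℝ univ F) (x y : Z) :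
    0 ≤ defect F x y := by
  have h := hF.2 (mem_univ x) (mem_univ y) (by norm_num : (0 : ℝ) ≤ 1 / 2)
    (by norm_num : (0 : ℝ) ≤ 1 / 2) (by norm_num)
  unfold defect
  rw [smul_add]
  simp only [smul_eq_mul] at h
  linarith

theorem sum_theta (th : ℕ → Z → ℝ) (hconv : ∀ i, ConvexOn ℝ univ (th i)) (h0 : ∀ i x, 0 ≤ th i x)
    (hle : ∀ i x, th i x ≤ 2 * (1 + ‖x‖) ^ 2)
    (hlip : ∀ (i : ℕ) (R : ℝ) (x y : Z), ‖x‖ ≤ R → ‖y‖ ≤ R → |th i x - th i y| ≤ 4 * (1 + R) * ‖x - y‖) :
    ∃ Θ : Z → ℝ, ConvexOn ℝ univ Θ ∧ (∀ x, Θ (-x) = Θ x) ∧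
      (∀ R : ℝ, ∃ L : ℝ, ∀ x y : Z, ‖x‖ ≤ R → ‖y‖ ≤ R → |Θ x - Θ y| ≤ L * ‖x - y‖) ∧
      (∀ x, ‖x‖ ^ 2 ≤ Θ x) ∧ (∀ x, ‖x‖ ≤ 1 / 4 → Θ x ≤ 1 / 2) ∧
      (∀ i, ∃ C : ℝ, 0 < C ∧ ∀ x y, 0 ≤ defect (th i) x y ∧ defect (th i) x y ≤ C * defect Θ x y) := by
  classical
  set c : ℕ → ℝ := fun i => (1 / 100) * (1 / 2 : ℝ) ^ (i + 1) with hc
  have hcpos : ∀ i, 0 < c i := fun i => by positivity
  have hcsum : HasSum c (1 / 100) := by
    have h := (hasSum_geometric_two).mul_left ((1 / 100 : ℝ) * (1 / 2))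
    have e : (1 / 100 : ℝ) * (1 / 2) * 2 = 1 / 100 := by norm_num
    rw [e] at h
    refine h.congr_fun ?_
    intro i
    simp only [hc, pow_succ]
    ring
  set g : ℕ → Z → ℝ := fun i x => c i * (th i x + th i (-x)) with hg
  have hg0 : ∀ i x, 0 ≤ g i x := fun i x =>
    mul_nonneg (hcpos i).le (add_nonneg (h0 i x) (h0 i (-x)))
  have hgle : ∀ i x, g i x ≤ c i * (4 * (1 + ‖x‖) ^ 2) := by
    intro i x
    apply mul_le_mul_of_nonneg_left _ (hcpos i).le
    have h1 := hle i x
    have h2 := hle i (-x)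
    rw [norm_neg] at h2
    linarith
  have hsc : ∀ K : ℝ, Summable (fun i => c i * K) := fun K => hcsum.summable.mul_right K
  have hsg : ∀ x, Summable (fun i => g i x) := fun x =>
    Summable.of_nonneg_of_le (fun i => hg0 i x) (fun i => hgle i x) (hsc _)
  have hgconv : ∀ i, ConvexOn ℝ univ (g i) := by
    intro i
    have hneg : ConvexOn ℝ univ (fun x => th i (-x)) := by
      refine ⟨convex_univ, ?_⟩
      intro x _ y _ a b ha hb hab
      have h := (hconv i).2 (mem_univ (-x)) (mem_univ (-y)) ha hb hab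
      have e : -(a • x + b • y) = a • (-x) + b • (-y) := by
        rw [smul_neg, smul_neg, neg_add]
      simp only [e]
      exact h
    have h := ((hconv i).add hneg).smul (hcpos i).le
    refine h.congr ?_
    intro x _
    simp [hg]
  have hnconv : ConvexOn ℝ univ (fun x : Z => ‖x‖ ^ 2) :=
    (convexOn_univ_norm (E := Z)).pow (fun x _ => norm_nonneg x) 2
  set Gs : Z → ℝ := fun x => ∑' i, g i x with hGs
  have hGconv : ConvexOn ℝ univ Gs := by
    refine ⟨convex_univ, ?_⟩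
    intro x _ y _ a b ha hb hab
    simp only [hGs, smul_eq_mul]
    rw [← tsum_mul_left, ← tsum_mul_left, ← ((hsg x).mul_left a).tsum_add ((hsg y).mul_left b)]
    refine (hsg _).tsum_le_tsum ?_ (((hsg x).mul_left a).add ((hsg y).mul_left b))
    intro i
    have h := (hgconv i).2 (mem_univ x) (mem_univ y) ha hb hab
    simpa only [smul_eq_mul] using h
  refine ⟨fun x => ‖x‖ ^ 2 + Gs x, hnconv.add hGconv, ?_, ?_, ?_, ?_, ?_⟩
  · intro x
    have : Gs (-x) = Gs x := by
      simp only [hGs, hg, neg_neg]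
      exact tsum_congr (fun i => by rw [add_comm])
    simp only [norm_neg, this]
  · intro R
    refine ⟨2 * R + (1 / 100) * (8 * (1 + R)), ?_⟩
    intro x y hx hy
    have h1 : |‖x‖ ^ 2 - ‖y‖ ^ 2| ≤ 2 * R * ‖x - y‖ := by
      have e : ‖x‖ ^ 2 - ‖y‖ ^ 2 = (‖x‖ + ‖y‖) * (‖x‖ - ‖y‖) := by ring
      rw [e, abs_mul, abs_of_nonneg (add_nonneg (norm_nonneg x) (norm_nonneg y))]
      have h2 := abs_norm_sub_norm_le x y
      have h3 : ‖x‖ + ‖y‖ ≤ 2 * R := by linarith
      exact mul_le_mul h3 h2 (abs_nonneg _) (by linarith [norm_nonneg x])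
    have h2 : |Gs x - Gs y| ≤ (1 / 100) * (8 * (1 + R) * ‖x - y‖) := by
      have hs : Gs x - Gs y = ∑' i, (g i x - g i y) := by
        simp only [hGs]
        rw [(hsg x).tsum_sub (hsg y)]
      have hb : ∀ i, ‖g i x - g i y‖ ≤ c i * (8 * (1 + R) * ‖x - y‖) := by
        intro i
        have e : g i x - g i y = c i * ((th i x - th i y) + (th i (-x) - th i (-y))) := by
          simp only [hg]; ring
        rw [e, Real.norm_eq_abs, abs_mul, abs_of_pos (hcpos i)]
        apply mul_le_mul_of_nonneg_left _ (hcpos i).le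
        refine (abs_add_le _ _).trans ?_
        have a1 := hlip i R x y hx hy
        have a2 := hlip i R (-x) (-y) (by rwa [norm_neg]) (by rwa [norm_neg])
        have e2 : ‖-x - -y‖ = ‖x - y‖ := by
          rw [← norm_neg]; congr 1; abel
        rw [e2] at a2
        linarith
      rw [hs, ← Real.norm_eq_abs]
      refine (tsum_of_norm_bounded (hcsum.mul_right _) hb)
    have e3 : (‖x‖ ^ 2 + Gs x) - (‖y‖ ^ 2 + Gs y) = (‖x‖ ^ 2 - ‖y‖ ^ 2) + (Gs x - Gs y) := by ring
    simp only []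
    rw [e3]
    refine (abs_add_le _ _).trans ?_
    nlinarith [h1, h2]
  · intro x
    have : 0 ≤ Gs x := tsum_nonneg (fun i => hg0 i x)
    simp only []
    linarith
  · intro x hx
    have h1 : Gs x ≤ (1 / 100) * (4 * (1 + ‖x‖) ^ 2) := by
      have h := (hsg x).tsum_le_tsum (fun i => hgle i x) (hsc _)
      rw [(hcsum.mul_right (4 * (1 + ‖x‖) ^ 2)).tsum_eq] at h
      exact h
    have hn := norm_nonneg x
    simp only []
    nlinarith
  · intro i
    refine ⟨1 / c i, by have := hcpos i; positivity, ?_⟩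
    intro x y
    refine ⟨R6_defect_nonneg (hconv i) x y, ?_⟩
    have hsd : Summable (fun j => (1 / 2) * g j x + (1 / 2) * g j y - g j ((1 / 2 : ℝ) • (x + y))) :=
      (((hsg x).mul_left _).add ((hsg y).mul_left _)).sub (hsg _)
    have hd : defect Gs x y = ∑' j, defect (g j) x y := by
      unfold defect
      rw [(((hsg x).mul_left (1 / 2)).add ((hsg y).mul_left (1 / 2))).tsum_sub (hsg _),
        ((hsg x).mul_left (1 / 2)).tsum_add ((hsg y).mul_left (1 / 2)), tsum_mul_left, tsum_mul_left]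
    have hdi : defect (g i) x y ≤ defect Gs x y := by
      rw [hd]
      exact hsd.le_tsum i (fun j _ => R6_defect_nonneg (hgconv j) x y)
    have hT : defect (fun x => ‖x‖ ^ 2 + Gs x) x y = defect (fun x : Z => ‖x‖ ^ 2) x y + defect Gs x y := by
      unfold defect; ring
    have hn := R6_defect_nonneg hnconv x y
    have hgi : defect (g i) x y = c i * (defect (th i) x y + defect (th i) (-x) (-y)) := by
      unfold defect
      simp only [hg]
      have e : -((1 / 2 : ℝ) • (x + y)) = (1 / 2 : ℝ) • (-x + -y) := by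
        rw [← smul_neg, neg_add]
      rw [e]
      ring
    have hm := R6_defect_nonneg (hconv i) (-x) (-y)
    have hkey : c i * defect (th i) x y ≤ defect (fun x => ‖x‖ ^ 2 + Gs x) x y := by
      rw [hT]
      have : c i * defect (th i) x y ≤ defect (g i) x y := by
        rw [hgi]
        exact mul_le_mul_of_nonneg_left (by linarith) (hcpos i).le
      linarith
    rw [one_div, ← div_eq_inv_mul, le_div_iff₀ (hcpos i), mul_comm]
    exact hkey

end Pool.Agent.DD
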