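import Pool.Agent.Lib.MP_dd9902_an.R4
import Pool.Agent.Lib.MP_dd9902_an.R5
import Pool.Agent.Lib.MP_dd9902_an.R5b
import Pool.Agent.Lib.MP_dd9902_an.R6
import Pool.Agent.Lib.MP_dd9902_an.I1a

/-!
# Row dd-R7 : the renorming lemma

Proof. For `p : ℕ` apply `hS` to `ε_p = 1/(p+1)`: sets `G p n`, `η p n > 0`, `Good`, covering the unit ball; replace `G p n` by
`A p n = G p n ∩ closedBall 0 1` (`Good.mono`).  For `i = Nat.pair p n` let `th i = theta (1/(p+1)) ((min (η p n) 1)^2/16) (A p n)`.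
`sum_theta` gives `Θ`, `gauge_norm` gives `N`.  LUR: let `N (g n) → N f`, `N (f + g n) → 2 N f`.  If `N f = 0` then `f = 0` and `N (g n - 0) → 0`.
Otherwise let `s = N f > 0`, `f' = s⁻¹ • f`, `g' n = s⁻¹ • g n`: `N f' = 1`, `N (g' n) → 1`, `N (f' + g' n) → 2`; `defect_tendsto`: `defect Θ f' (g' n) → 0`,
so by the last property of `sum_theta` every `defect (th i) f' (g' n) → 0` (squeeze).  `‖f'‖ ≤ N f' = 1`, so for each `p` there is `n` with `f' ∈ A p n`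
and `local_lemma` gives `‖g' k - f'‖ ≤ 2/(p+1) + δ` eventually.  Hence `g' → f'`, `g → f` in norm and `N (g n - f) ≤ 4 ‖g n - f‖ → 0`.
-/

set_option autoImplicit false

open scoped BigOperators Topology
open Set Filter MeasureTheory

namespace Pool.Agent.DD

variable {Z : Type*} [NormedAddCommGroup Z] [NormedSpace ℝ Z]

theorem renorm (hS : ∀ ε : ℝ, 0 < ε → Small ε (Metric.closedBall (0 : Z) 1)) :
    ∃ N : Z → ℝ,
      (∃ a b : ℝ, 0 < a ∧ 0 < b ∧ ∀ f : Z, a * ‖f‖ ≤ N f ∧ N f ≤ b * ‖f‖) ∧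
      (∀ f g : Z, N (f + g) ≤ N f + N g) ∧
      (∀ (t : ℝ) (f : Z), N (t • f) = |t| * N f) ∧
      (∀ (f : Z) (g : ℕ → Z),
        Tendsto (fun n => N (g n)) atTop (𝓝 (N f)) →
        Tendsto (fun n => N (f + g n)) atTop (𝓝 (2 * N f)) →
        Tendsto (fun n => N (g n - f)) atTop (𝓝 0)) :=
      by
  have hpos : ∀ p : ℕ, (0 : ℝ) < 1 / ((p : ℝ) + 1) := fun p => by positivity
  choose G η hG hcov using fun p : ℕ => hS (1 / ((p : ℝ) + 1)) (hpos p)
  have hA : ∀ p n, ∀ z ∈ G p n ∩ Metric.closedBall (0 : Z) 1, ‖z‖ ≤ 1 := fun p n z hz => by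
    simpa using hz.2
  have hw0 : ∀ p n, (0 : ℝ) ≤ (min (η p n) 1) ^ 2 / 16 := fun p n => by positivity
  have hw1 : ∀ p n, (min (η p n) 1) ^ 2 / 16 ≤ (1 : ℝ) := fun p n => by
    have h1 : 0 ≤ min (η p n) 1 := le_min (hG p n).1.le zero_le_one
    have h2 : min (η p n) 1 ≤ 1 := min_le_right _ _
    nlinarith
  obtain ⟨Θ, hc, hev, hlip, hlow, hup, hdef⟩ := sum_theta
    (fun i => theta (1 / ((i.unpair.1 : ℝ) + 1)) ((min (η i.unpair.1 i.unpair.2) 1) ^ 2 / 16)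
      (G i.unpair.1 i.unpair.2 ∩ Metric.closedBall (0 : Z) 1))
    (fun i => theta_convex (hpos _).le (hw0 _ _) (hw1 _ _) (hA _ _))
    (fun i x => theta_nonneg (hw0 _ _) _ x)
    (fun i x => theta_le (hpos _).le (hw0 _ _) (hw1 _ _) (hA _ _) x)
    (fun i R x y hx hy => theta_lip (hpos _).le (hw0 _ _) (hw1 _ _) (hA _ _) hx hy)
  obtain ⟨N, hN1, hNadd, hNsmul, hN1'⟩ := gauge_norm hc hev hlip hlow hup
  refine ⟨N, ⟨1, 4, one_pos, by norm_num, fun f => ⟨by simpa using (hN1 f).1, (hN1 f).2⟩⟩, hNadd,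
    hNsmul, ?_⟩
  intro f g hg hfg
  by_cases hf : f = 0
  · subst hf
    have N0 : N 0 = 0 := le_antisymm (by simpa using (hN1 0).2) (by simpa using (hN1 0).1)
    simpa [N0] using hg
  have hs : 0 < N f := lt_of_lt_of_le (norm_pos_iff.2 hf) (hN1 f).1
  set s := N f with hsdef
  have habs : |s⁻¹| = s⁻¹ := abs_of_pos (inv_pos.2 hs)
  have hNf' : N (s⁻¹ • f) = 1 := by
    rw [hNsmul, habs, ← hsdef, inv_mul_cancel₀ hs.ne']
  have hg' : Tendsto (fun n => N (s⁻¹ • g n)) atTop (𝓝 1) := by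
    have h1 := hg.const_mul s⁻¹
    rw [inv_mul_cancel₀ hs.ne'] at h1
    refine h1.congr (fun n => ?_)
    rw [hNsmul, habs]
  have hfg' : Tendsto (fun n => N (s⁻¹ • f + s⁻¹ • g n)) atTop (𝓝 2) := by
    have h1 := hfg.const_mul s⁻¹
    have h2 : s⁻¹ * (2 * s) = 2 := by
      field_simp
    rw [h2] at h1
    refine h1.congr (fun n => ?_)
    rw [← smul_add, hNsmul, habs]
  have hdt := defect_tendsto hlip (fun x => (hN1 x).1) hNsmul hN1' hNf' hg' hfg'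
  have hfn : ‖s⁻¹ • f‖ ≤ 1 := (hN1 _).1.trans_eq hNf'
  have hconv : ∀ δ > 0, ∀ᶠ n in atTop, ‖s⁻¹ • g n - s⁻¹ • f‖ < δ := by
    intro δ hδ
    obtain ⟨p, hp⟩ := exists_nat_one_div_lt (show (0 : ℝ) < δ / 4 by linarith)
    have hmem : s⁻¹ • f ∈ ⋃ n, G p n := hcov p (by simpa using hfn)
    obtain ⟨n0, hn0⟩ := mem_iUnion.1 hmem
    obtain ⟨C, hC, hCd⟩ := hdef (Nat.pair p n0)
    simp only [Nat.unpair_pair] at hCd
    have hd : Tendsto (fun n => defect (theta (1 / ((p : ℝ) + 1)) ((min (η p n0) 1) ^ 2 / 16)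
        (G p n0 ∩ Metric.closedBall (0 : Z) 1)) (s⁻¹ • f) (s⁻¹ • g n)) atTop (𝓝 0) := by
      refine squeeze_zero (fun n => (hCd _ _).1) (fun n => (hCd _ _).2) ?_
      simpa using hdt.const_mul C
    have hloc := local_lemma (hpos p).le (hG p n0).1 (hA p n0)
      ((hG p n0).2.mono inter_subset_left) ⟨hn0, by simpa using hfn⟩ hd (δ / 4) (by linarith)
    filter_upwards [hloc] with n hn
    linarith
  have hlim : Tendsto (fun n => s⁻¹ • g n - s⁻¹ • f) atTop (𝓝 0) := by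
    rw [Metric.tendsto_nhds]
    intro δ hδ
    filter_upwards [hconv δ hδ] with n hn
    simpa [dist_zero_right] using hn
  have hlim2 : Tendsto (fun n => 4 * (s * ‖s⁻¹ • g n - s⁻¹ • f‖)) atTop (𝓝 0) := by
    have h1 := (hlim.norm.const_mul s).const_mul 4
    simpa using h1
  refine squeeze_zero (fun n => (norm_nonneg _).trans (hN1 _).1) (fun n => (hN1 _).2.trans ?_) hlim2
  have h1 : g n - f = s • (s⁻¹ • g n - s⁻¹ • f) := by
    rw [smul_sub, smul_smul, smul_smul, mul_inv_cancel₀ hs.ne', one_smul, one_smul]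
  have h2 : ‖g n - f‖ = s * ‖s⁻¹ • g n - s⁻¹ • f‖ := by
    conv_lhs => rw [h1]
    rw [norm_smul, Real.norm_eq_abs, abs_of_pos hs]
  rw [h2]

end Pool.Agent.DD
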