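import Pool.Agent.Lib.MP_dd9902_an.I2
import Pool.Agent.Lib.MP_dd9902_an.T1b

/-!
# Row dd-T2 : existence of the tree

Proof. State at stage `j`: a non-small set `A ⊆ closedBall 0 1` and a finite set `Φ` of maps `Z → Z` (all the compositions `comp j`).
Start: `A = closedBall 0 1`, `Φ = {id}`.  Given `(A, Φ)`: `step` (with `η j`) gives `n, ψ, f, A'`; let `Φ' = Φ ∪ {φ ∘ ψ a | φ ∈ Φ, a ≤ n}` (finite) and
shrink `A'` by `shrink_osc` (with `η j`, index type: the finite type `Φ' × Fin (n+1)`, functions `k ↦ (φ' k) (f a)`) to `A''`; new state `(A'', Φ')`.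
Iterate (dependent choice on the subtype of states; e.g. define by `Nat.rec` a sequence of states and read off `n j, ψ j, f j` by `Classical.choose`).
By induction `comp ψ m S j ∈ Φ j` for all `m` with `m i ≤ n i` and all `S`, whence `osc`.  `ne` from `nonempty_of_not_small`.
-/

set_option autoImplicit false

open scoped BigOperators Topology
open Set Filter MeasureTheory

namespace Pool.Agent.DD

variable {X : Type*} [NormedAddCommGroup X] [NormedSpace ℝ X] [TopologicalSpace.SeparableSpace X]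

/-- The states of the construction. -/
structure T2_State (X : Type*) [NormedAddCommGroup X] [NormedSpace ℝ X] (ε : ℝ) where
  A : Set (X →L[ℝ] ℝ)
  F : Set ((X →L[ℝ] ℝ) → (X →L[ℝ] ℝ))
  big : ¬ Small ε A
  ball : A ⊆ Metric.closedBall 0 1
  fin : F.Finite

theorem T2_step {ε : ℝ} (hε : 0 ≤ ε) {η : ℝ} (hη : 0 < η) (s : T2_State X ε) :
    ∃ (n : ℕ) (ψ : ℕ → (X →L[ℝ] ℝ) → (X →L[ℝ] ℝ)) (f : ℕ → X) (s' : T2_State X ε),
      s'.A ⊆ s.A ∧ (∀ a, ‖f a‖ ≤ 1) ∧
      (∀ k ∈ s'.A, (∀ a, a ≤ n → ψ a k ∈ s.A) ∧ ‖k - avg n (fun a => ψ a k)‖ ≤ η ∧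
        ∀ a, a ≤ n → ε < k (f a) - (ψ a k) (f a)) ∧
      s.F ⊆ s'.F ∧ (∀ φ ∈ s.F, ∀ a, a ≤ n → (fun t => φ (ψ a t)) ∈ s'.F) ∧
      ∀ φ ∈ s'.F, ∀ a, a ≤ n → ∀ k ∈ s'.A, ∀ k' ∈ s'.A, |φ k (f a) - φ k' (f a)| ≤ η := by
  obtain ⟨n, ψ, f, A', hsub, hbig, hf, hk⟩ := step hε hη s.big
  set F' : Set ((X →L[ℝ] ℝ) → (X →L[ℝ] ℝ)) :=
    s.F ∪ (fun q : ((X →L[ℝ] ℝ) → (X →L[ℝ] ℝ)) × ℕ => fun t => q.1 (ψ q.2 t)) ''
      (s.F ×ˢ (Set.Iic n)) with hF'
  have hfin : F'.Finite := s.fin.union ((s.fin.prod (Set.finite_Iic n)).image _)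
  have : Finite F' := hfin
  obtain ⟨A'', hA'', hbig'', hosc⟩ := shrink_osc (ι := F' × Fin (n + 1)) hη hbig
    (fun q k => (q.1.1 k) (f q.2))
  refine ⟨n, ψ, f, ⟨A'', F', hbig'', (hA''.trans hsub).trans s.ball, hfin⟩, hA''.trans hsub, hf,
    fun k hk' => hk k (hA'' hk'), Set.subset_union_left, ?_, ?_⟩
  · intro φ hφ a ha
    right
    exact ⟨(φ, a), ⟨hφ, ha⟩, rfl⟩
  · intro φ hφ a ha k hk1 k' hk2
    exact hosc (⟨φ, hφ⟩, ⟨a, Nat.lt_succ_of_le ha⟩) k hk1 k' hk2

theorem exists_tree {ε : ℝ} (hε : 0 ≤ ε) {η : ℕ → ℝ} (hη : ∀ j, 0 < η j)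
    (h : ¬ Small ε (Metric.closedBall (0 : X →L[ℝ] ℝ) 1)) : Nonempty (Tree X ε η) := by
  choose n ψ f nx h1 h2 h3 h4 h5 h6 using
    fun (j : ℕ) (s : T2_State X ε) => T2_step (X := X) hε (hη j) s
  let s0 : T2_State X ε := ⟨Metric.closedBall 0 1, {fun t => t}, h, le_refl _, Set.finite_singleton _⟩
  let st : ℕ → T2_State X ε := fun j => Nat.rec s0 (fun j s => nx j s) j
  have hst : ∀ j, st (j + 1) = nx j (st j) := fun j => rfl
  have hcomp : ∀ (j : ℕ) (m : ℕ → ℕ) (S : ℕ → Bool), (∀ i, m i ≤ n i (st i)) →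
      comp (fun j => ψ j (st j)) m S j ∈ (st j).F := by
    intro j m S hm
    induction j with
    | zero => exact Set.mem_singleton _
    | succ j ih =>
      rw [hst]
      have e : comp (fun j => ψ j (st j)) m S (j + 1) =
          fun t => comp (fun j => ψ j (st j)) m S j (if S j then ψ j (st j) (m j) t else t) := by
        funext t
        rfl
      rw [e]
      cases hS : S j with
      | true =>
        simp only [if_true]
        exact h5 j (st j) _ ih (m j) (hm j)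
      | false =>
        simp only [Bool.false_eq_true, if_false]
        exact h4 j (st j) ih
  refine ⟨{
    A := fun j => (st j).A
    n := fun j => n j (st j)
    ψ := fun j => ψ j (st j)
    f := fun j => f j (st j)
    ball := ?_
    anti := fun j => h1 j (st j)
    ne := fun j => nonempty_of_not_small (st j).big
    maps := fun j a k ha hk => (h3 j (st j) k hk).1 a ha
    avg_le := fun j k hk => (h3 j (st j) k hk).2.1
    fnorm := fun j a _ => h2 j (st j) a
    wit := fun j a k ha hk => (h3 j (st j) k hk).2.2 a ha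
    osc := ?_ }⟩
  · intro j k hk
    have := (st j).ball hk
    rwa [Metric.mem_closedBall, dist_zero_right] at this
  · intro j m S hm k hk k' hk'
    exact h6 j (st j) _ (hcomp (j + 1) m S hm) (m j) (hm j) k hk k' hk'

end Pool.Agent.DD
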