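import Pool.Agent.Lib.MP_dd9902_an.M1
import Pool.Agent.Lib.MP_dd9902_an.T2
import Pool.Agent.Lib.MP_dd9902_an.R7

/-!
# Main theorem: no `ℓ₁` gives smallness of the dual ball, and the LUR norm
-/

set_option autoImplicit false

open scoped BigOperators Topology
open Set Filter MeasureTheory

namespace Pool.Agent.DD

theorem small_ball {X : Type*} [NormedAddCommGroup X] [NormedSpace ℝ X] [CompleteSpace X]
    [TopologicalSpace.SeparableSpace X]
    (hX : ¬ ∃ T : (lp (fun _ : ℕ => ℝ) 1) →L[ℝ] X, ∃ c : ℝ, 0 < c ∧ ∀ x, c * ‖x‖ ≤ ‖T x‖)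
    {ε : ℝ} (hε : 0 < ε) : Small ε (Metric.closedBall (0 : X →L[ℝ] ℝ) 1) := by
  by_contra hns
  let η : ℕ → ℝ := fun j => (ε / 128) * (1 / 2) ^ j
  have hη : ∀ j, 0 < η j := fun j => by positivity
  have hs : ∀ N, ∑ l ∈ Finset.range N, η l ≤ ε / 64 := by
    intro N
    have h1 : ∑ l ∈ Finset.range N, η l = (ε / 128) * ∑ l ∈ Finset.range N, (1 / 2 : ℝ) ^ l := by
      rw [Finset.mul_sum]
    rw [h1]
    have h2 : ∑ l ∈ Finset.range N, (1 / 2 : ℝ) ^ l ≤ 2 := by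
      have := geom_sum_eq (by norm_num : (1 / 2 : ℝ) ≠ 1) N
      rw [this]
      have h3 : (0 : ℝ) ≤ (1 / 2) ^ N := by positivity
      rw [div_le_iff_of_neg (by norm_num)]
      linarith
    nlinarith
  obtain ⟨T⟩ := exists_tree hε.le hη hns
  exact hX (l1_of_tree T hε (fun j => (hη j).le) hs)

end Pool.Agent.DD
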