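import Pool.Agent.Lib.MP_dd9902_an.Defs

/-!
# Row dd-P1a : resampling one coordinate of a product measure; finite uniform measures

`measurePreserving_update`: measurability of the map by `measurable_pi_iff`/`Measurable.update'`-like lemmas; the image measure `ν` satisfies
`ν (Set.pi s t) = ∏ i ∈ s, μ i (t i)` for all finite `s` and measurable `t` (the preimage of the box is a product set:
`{m | ∀ l ∈ s \ {i}, m l ∈ t l} ×ˢ t i` resp. `... ×ˢ univ`), so `ν = infinitePi μ` by `eq_infinitePi`.
`integral_muM_update`: `∫ F dμ = ∫ F(update m i a) d(μ ⊗ unif)` (`MeasurePreserving.integral_comp'` or `integral_map`), Fubini (`integral_prod_symm` etc.) and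
`∫ G d(unif n) = (n+1)⁻¹ ∑ a, G a` (`ProbabilityTheory.uniformOn`, `integral_fintype`, each singleton has measure `1/(n+1)`).
`F` has finite... `F` depends on the first `N` coordinates only, so it is measurable (row P4 has the same lemma: here it is proved for `F` given measurable and bounded).
`coin_half`: the same for `coin`: with `F = indicator (A ∩ {S | S j = b})`; `update S j b' ∈ A ↔ S ∈ A`, so
`coin (A ∩ {S j = b}) = ∫∫ 1_A(S) 1[b' = b] = coin A * (1/2)`.
-/

set_option autoImplicit false

open scoped BigOperators Topology
open Set Filter MeasureTheory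

namespace Pool.Agent.DD

theorem measurePreserving_update {ι : Type*} [DecidableEq ι] {E : ι → Type*} [∀ i, MeasurableSpace (E i)]
    (μ : (i : ι) → Measure (E i)) [∀ i, IsProbabilityMeasure (μ i)] (i : ι) :
    MeasurePreserving (fun p : ((i : ι) → E i) × E i => Function.update p.1 i p.2)
      ((Measure.infinitePi μ).prod (μ i)) (Measure.infinitePi μ) := by
  have hm : Measurable (fun p : ((i : ι) → E i) × E i => Function.update p.1 i p.2) := by
    rw [measurable_pi_iff]
    intro j
    by_cases hj : j = i
    · subst hj
      simpa using measurable_snd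
    · simp only [Function.update_of_ne hj]
      exact (measurable_pi_apply j).comp measurable_fst
  refine ⟨hm, ?_⟩
  refine Measure.eq_infinitePi μ fun s t ht => ?_
  rw [Measure.map_apply hm (MeasurableSet.pi s.countable_toSet fun j _ => ht j)]
  have hpre : (fun p : ((i : ι) → E i) × E i => Function.update p.1 i p.2) ⁻¹' (Set.pi s t) =
      (Set.pi (s.erase i : Finset ι) t) ×ˢ (if i ∈ s then t i else Set.univ) := by
    ext p
    simp only [Set.mem_preimage, Set.mem_pi, Finset.mem_coe, Set.mem_prod, Finset.mem_erase]
    constructor
    · intro h
      refine ⟨fun j hj => ?_, ?_⟩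
      · have := h j hj.2
        rwa [Function.update_of_ne hj.1] at this
      · by_cases hi : i ∈ s
        · have := h i hi
          rw [Function.update_self] at this
          simpa [hi] using this
        · simp [hi]
    · rintro ⟨h1, h2⟩ j hj
      by_cases hji : j = i
      · subst hji
        rw [Function.update_self]
        simpa [hj] using h2
      · rw [Function.update_of_ne hji]
        exact h1 j ⟨hji, hj⟩
  rw [hpre, Measure.prod_prod, Measure.infinitePi_pi μ (fun j _ => ht j)]
  by_cases hi : i ∈ s
  · rw [if_pos hi, Finset.prod_erase_mul _ _ hi]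
  · rw [if_neg hi, measure_univ, mul_one, Finset.erase_eq_of_notMem hi]

end Pool.Agent.DD
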