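import Pool.Agent.Lib.MP_dd9902_an.P1a

/-!
# Row dd-P1c : resampling one coordinate of a product measure; finite uniform measures

`measurePreserving_update`: measurability of the map by `measurable_pi_iff`/`Measurable.update'`-like lemmas; the image measure `ν` satisfies
`ν (Set.pi s t) = ∏ i ∈ s, μ i (t i)` for all finite `s` and measurable `t` (the preimage of the box is a product set:
`{m | ∀ l ∈ s \ {i}, m l ∈ t l} ×ˢ t i` resp. `... ×ˢ univ`), so `ν = infinitePi μ` by `eq_infinitePi`.
`integral_muM_update`: `∫ F dμ = ∫ F(update m i a) d(μ ⊗ unif)` (`MeasurePreserving.integral_comp'` or `integral_map`), Fubini (`integral_prod_symm` etc.) and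
`∫ G d(unif n) = (n+1)⁻¹ ∑ a, G a` (`ProbabilityTheory.uniformOn`, `integral_fintype`, each singleton has measure `1/(n+1)`).
`F` has finite... `F` depends on the first `N` coordinates only, so it is measurable (row P4 has the same lemma: here it is proved for `F` given measurable and bounded).
`coin_half`: the same for `coin`: with `F = indicator (A ∩ {S | S j = b})`; `update S j b' ∈ A ↔ S ∈ A`, so
`coin (A ∩ {S j = b}) = ∫∫ 1_A(S) 1[b' = b] = coin A * (1/2)`.
-/

set_option autoImplicit false

open scoped BigOperators Topology
open Set Filter MeasureTheory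

namespace Pool.Agent.DD

theorem coin_half {A : Set (ℕ → Bool)} (hA : MeasurableSet A) {j : ℕ}
    (hdep : ∀ (S : ℕ → Bool) (b : Bool), Function.update S j b ∈ A ↔ S ∈ A) (b : Bool) :
    coin.real (A ∩ {S | S j = b}) = (1 / 2) * coin.real A := by
  have hm := measurePreserving_update (fun _ : ℕ => coin1) j
  have hB : MeasurableSet {S : ℕ → Bool | S j = b} :=
    measurableSet_eq_fun (measurable_pi_apply j) measurable_const
  have h1 := hm.measure_preimage (hA.inter hB).nullMeasurableSet
  have h2 : (fun p : (ℕ → Bool) × Bool => Function.update p.1 j p.2) ⁻¹' (A ∩ {S | S j = b}) = A ×ˢ {b} := by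
    ext ⟨S, c⟩
    simp [hdep]
  have h3 : coin1 {b} = 1 / 2 := by
    unfold coin1
    rw [ProbabilityTheory.uniformOn_univ]
    simp
  rw [h2, Measure.prod_prod, h3] at h1
  have h4 : coin (A ∩ {S | S j = b}) = coin A * (1 / 2) := h1.symm
  rw [Measure.real, Measure.real, h4, ENNReal.toReal_mul, mul_comm]
  congr 1
  simp

end Pool.Agent.DD
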