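import Pool.Agent.Lib.MP_dd9902_an.Defs

/-!
# Row dd-R1 : goodness and convex hulls

Proof. Let `c` be in the convex hull of `F = farPts ε A k`: `c = ∑_{i ∈ s} w i • z i`, a finite convex combination
(`convexHull_eq` or `mem_convexHull_iff_exists_fintype`).  For every `N ≥ 1` let `u i = ⌊N * w i⌋₊` and put the remaining
`N - ∑ u i` copies on one fixed point `z i₀` of `F`: this gives a uniform average `c_N` of `N` points of `F` (a map
`Fin N → F`; e.g. use a multiset/list with these multiplicities, or the fact that the set `Q` of all uniform averages of points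
of `F` is rationally convex and so its closure is convex and contains `F`, hence contains the convex hull).
`‖c - c_N‖ ≤ (number of points) * max ‖z i‖ / N → 0`.  As `‖k - c_N‖ > η` for all `N`, `‖k - c‖ ≥ η`.

Perhaps the shortest way: let `Q = {c | ∀ δ > 0, ∃ n p, (∀ i, p i ∈ F) ∧ ‖c - avg n p‖ < δ}`; show `Q` is closed under
midpoints (concatenate `(n'+1)` copies of the first family and `(n+1)` copies of the second: the average of both is the
midpoint when both families have the same length `(n+1)(n'+1)`) and closed, so it is convex (`closed + midpoint convex`,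
dyadic approximation), and it contains `F`.
-/

set_option autoImplicit false

open scoped BigOperators
open Set Filter MeasureTheory

namespace Pool.Agent.DD

variable {Z : Type*} [NormedAddCommGroup Z] [NormedSpace ℝ Z]

omit [NormedSpace ℝ Z] in
private theorem R1_multiset {F : Set Z} (N : ℕ) (m : Multiset Z) (hm : m.card = N + 1)
    (hF : ∀ z ∈ m, z ∈ F) : ∃ p : Fin (N + 1) → Z, (∀ i, p i ∈ F) ∧ ∑ i, p i = m.sum := by
  induction m using Quotient.inductionOn with
  | _ l =>
    have hl : l.length = N + 1 := hm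
    refine ⟨fun i => l.get (Fin.cast hl.symm i), fun i => hF _ (List.get_mem _ _), ?_⟩
    have h1 : (l.get ∘ Fin.cast hl.symm) = fun i => l.get (Fin.cast hl.symm i) := rfl
    have h2 : ∑ i : Fin (N + 1), l.get (Fin.cast hl.symm i) = ∑ j : Fin l.length, l.get j := by
      apply Fintype.sum_equiv (finCongr hl.symm)
      intro i
      rfl
    rw [h2, ← List.sum_ofFn, List.ofFn_get]
    rfl

theorem good_dist {ε η : ℝ} {A : Set Z} (hG : Good ε η A) {k c : Z} (hk : k ∈ A)
    (hc : c ∈ convexHull ℝ (farPts ε A k)) : η ≤ ‖k - c‖ := by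
  classical
  rw [mem_convexHull_iff_exists_fintype] at hc
  obtain ⟨ι, hι, w, z, hw0, hw1, hz, rfl⟩ := hc
  by_contra hcon
  push Not at hcon
  -- a point to absorb the remainder
  have hne : Nonempty ι := by
    by_contra h
    rw [not_nonempty_iff] at h
    simp at hw1
  obtain ⟨i₀⟩ := hne
  set C : ℝ := (∑ i, ‖z i‖) + Fintype.card ι * ‖z i₀‖ with hC
  have hC0 : 0 ≤ C := by positivity
  obtain ⟨N, hN⟩ := exists_nat_gt (C / (η - ‖k - ∑ i, w i • z i‖))
  have hd : 0 < η - ‖k - ∑ i, w i • z i‖ := sub_pos.mpr hcon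
  have hN' : C < (η - ‖k - ∑ i, w i • z i‖) * ((N : ℝ) + 1) := by
    rw [div_lt_iff₀ hd] at hN
    nlinarith
  have hNp : (0 : ℝ) < (N : ℝ) + 1 := by positivity
  set u : ι → ℕ := fun i => ⌊((N : ℝ) + 1) * w i⌋₊ with hu
  have hu1 : ∀ i, (u i : ℝ) ≤ ((N : ℝ) + 1) * w i := fun i =>
    Nat.floor_le (mul_nonneg hNp.le (hw0 i))
  have hu2 : ∀ i, ((N : ℝ) + 1) * w i - 1 ≤ u i := fun i => by
    have := Nat.lt_floor_add_one (((N : ℝ) + 1) * w i)
    show ((N : ℝ) + 1) * w i - 1 ≤ (⌊((N : ℝ) + 1) * w i⌋₊ : ℝ)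
    linarith
  have hsum : ∑ i, ((N : ℝ) + 1) * w i = (N : ℝ) + 1 := by
    rw [← Finset.mul_sum, hw1, mul_one]
  have hus : ∑ i, u i ≤ N + 1 := by
    have h1 : ((∑ i, u i : ℕ) : ℝ) ≤ ((N + 1 : ℕ) : ℝ) := by
      push_cast
      rw [← hsum]
      exact Finset.sum_le_sum fun i _ => hu1 i
    exact_mod_cast h1
  set r : ℕ := N + 1 - ∑ i, u i with hr
  have hr1 : (r : ℝ) ≤ Fintype.card ι := by
    have h1 : (r : ℝ) = ((N : ℝ) + 1) - ∑ i, (u i : ℝ) := by
      rw [hr, Nat.cast_sub hus]
      push_cast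
      ring
    rw [h1, ← hsum, ← Finset.sum_sub_distrib]
    calc ∑ i, (((N : ℝ) + 1) * w i - u i) ≤ ∑ _i : ι, (1 : ℝ) :=
          Finset.sum_le_sum fun i _ => by have := hu2 i; linarith
      _ = Fintype.card ι := by simp
  obtain ⟨p, hp1, hp2⟩ := R1_multiset (F := farPts ε A k) N
    ((∑ i, u i • ({z i} : Multiset Z)) + r • ({z i₀} : Multiset Z)) (by
      simp only [Multiset.card_add, Multiset.card_sum, Multiset.card_nsmul,
        Multiset.card_singleton, mul_one]
      omega) (by
      intro y hy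
      rw [Multiset.mem_add] at hy
      rcases hy with hy | hy
      · rw [Multiset.mem_sum] at hy
        obtain ⟨i, _, hi⟩ := hy
        have := Multiset.mem_of_mem_nsmul hi
        rw [Multiset.mem_singleton] at this
        rw [this]
        exact hz i
      · have := Multiset.mem_of_mem_nsmul hy
        rw [Multiset.mem_singleton] at this
        rw [this]
        exact hz i₀)
  have hp3 : ∑ i, p i = (∑ i, (u i : ℝ) • z i) + (r : ℝ) • z i₀ := by
    rw [hp2]
    simp only [Multiset.sum_add, Multiset.sum_nsmul, Multiset.sum_singleton, Nat.cast_smul_eq_nsmul]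
    congr 1
    rw [← Multiset.coe_sumAddMonoidHom, map_sum]
    refine Finset.sum_congr rfl fun i _ => ?_
    rw [Multiset.coe_sumAddMonoidHom, Multiset.sum_nsmul, Multiset.sum_singleton]
  have hfar := hG k hk N p hp1
  have herr : ((N : ℝ) + 1) * ‖(∑ i, w i • z i) - avg N p‖ ≤ C := by
    have h1 : ((N : ℝ) + 1) * ‖(∑ i, w i • z i) - avg N p‖ =
        ‖(∑ i, (((N : ℝ) + 1) * w i - u i) • z i) - (r : ℝ) • z i₀‖ := by
      rw [← abs_of_pos hNp, ← Real.norm_eq_abs, ← norm_smul, Real.norm_eq_abs, abs_of_pos hNp]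
      congr 1
      unfold avg
      rw [smul_sub, smul_smul, mul_inv_cancel₀ hNp.ne', one_smul, hp3, Finset.smul_sum]
      simp only [sub_smul, Finset.sum_sub_distrib, smul_smul]
      abel
    rw [h1]
    refine (norm_sub_le _ _).trans ?_
    refine add_le_add ?_ ?_
    · refine (norm_sum_le _ _).trans (Finset.sum_le_sum fun i _ => ?_)
      rw [norm_smul, Real.norm_eq_abs, abs_of_nonneg (by have := hu1 i; linarith)]
      have := hu2 i
      have h3 := norm_nonneg (z i)
      nlinarith
    · rw [norm_smul, Real.norm_eq_abs, abs_of_nonneg (Nat.cast_nonneg r)]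
      exact mul_le_mul_of_nonneg_right hr1 (norm_nonneg _)
  have h4 : ‖k - avg N p‖ ≤ ‖k - ∑ i, w i • z i‖ + ‖(∑ i, w i • z i) - avg N p‖ := by
    have : k - avg N p = (k - ∑ i, w i • z i) + ((∑ i, w i • z i) - avg N p) := by abel
    rw [this]
    exact norm_add_le _ _
  nlinarith

end Pool.Agent.DD
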