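import Pool.Agent.Lib.MP_dd9902_an.Defs

/-!
# Row dd-R2a : the functions `phi`, `psi`

Proofs. `x ↦ infDist x C` is 1-Lipschitz (`Metric.lipschitz_infDist_pt`), nonnegative, convex if `C` is convex
(for `C` nonempty: choose almost nearest points `c₁, c₂` and use `a c₁ + b c₂ ∈ C`; for `C` empty it is `0`).
If there are no far points `phi` is the constant `1`.
`phi_le`, `psi_le`: a far point `z` has `‖z‖ ≤ 1`, `infDist x C ≤ dist x z ≤ ‖x‖ + 1`; `k` itself is a near point.
`phi_self`: `good_dist` and `infDist` is the infimum (`Metric.le_infDist`/`infDist_lt_iff`).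
`phi_pos_near`: if `‖k - x‖ > ε` and `x ∈ A` then `x` is a far point, so `phi = infDist x _ = 0`.
`psi_near`: `x` is a near point, so `infDist = 0`.
`psi_dist`: all near points, hence their convex hull, lie in `closedBall k ε`.
-/

set_option autoImplicit false

open scoped BigOperators
open Set Filter MeasureTheory

namespace Pool.Agent.DD

variable {Z : Type*} [NormedAddCommGroup Z] [NormedSpace ℝ Z]

private theorem R2a_convex (C : Set Z) (hC : Convex ℝ C) :
    ConvexOn ℝ univ (fun x => Metric.infDist x C) := by
  refine ⟨convex_univ, ?_⟩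
  intro x _ y _ a b ha hb hab
  rcases C.eq_empty_or_nonempty with h0 | hne
  · subst h0
    simp
  · refine le_of_forall_pos_le_add ?_
    intro δ hδ
    obtain ⟨c, hc, hxc⟩ := (Metric.infDist_lt_iff (x := x) (r := Metric.infDist x C + δ) hne).1
      (by linarith)
    obtain ⟨d, hd, hyd⟩ := (Metric.infDist_lt_iff (x := y) (r := Metric.infDist y C + δ) hne).1
      (by linarith)
    have h1 : Metric.infDist (a • x + b • y) C ≤ dist (a • x + b • y) (a • c + b • d) :=
      Metric.infDist_le_dist_of_mem (hC hc hd ha hb hab)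
    have h2 : dist (a • x + b • y) (a • c + b • d) ≤ a * dist x c + b * dist y d := by
      rw [dist_eq_norm, dist_eq_norm, dist_eq_norm]
      have h3 : a • x + b • y - (a • c + b • d) = a • (x - c) + b • (y - d) := by
        rw [smul_sub, smul_sub]
        abel
      rw [h3]
      refine (norm_add_le _ _).trans ?_
      rw [norm_smul, norm_smul, Real.norm_of_nonneg ha, Real.norm_of_nonneg hb]
    have h4 : a * dist x c ≤ a * (Metric.infDist x C + δ) :=
      mul_le_mul_of_nonneg_left hxc.le ha
    have h5 : b * dist y d ≤ b * (Metric.infDist y C + δ) :=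
      mul_le_mul_of_nonneg_left hyd.le hb
    have h6 : a * (Metric.infDist x C + δ) + b * (Metric.infDist y C + δ)
        = a * Metric.infDist x C + b * Metric.infDist y C + (a + b) * δ := by ring
    rw [hab, one_mul] at h6
    show Metric.infDist (a • x + b • y) C ≤ a • Metric.infDist x C + b • Metric.infDist y C + δ
    rw [smul_eq_mul, smul_eq_mul]
    linarith

omit [NormedSpace ℝ Z] in
private theorem R2a_lip (C : Set Z) (x y : Z) :
    |Metric.infDist x C - Metric.infDist y C| ≤ ‖x - y‖ := by
  have h1 : Metric.infDist x C ≤ Metric.infDist y C + dist x y := Metric.infDist_le_infDist_add_dist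
  have h2 : Metric.infDist y C ≤ Metric.infDist x C + dist y x := Metric.infDist_le_infDist_add_dist
  rw [dist_comm y x] at h2
  rw [dist_eq_norm] at h1 h2
  rw [abs_le]
  constructor <;> linarith

theorem phi_nonneg (ε : ℝ) (A : Set Z) (k x : Z) : 0 ≤ phi ε A k x := by
  unfold phi
  split_ifs
  · exact Metric.infDist_nonneg
  · exact zero_le_one

theorem psi_nonneg (ε : ℝ) (A : Set Z) (k x : Z) : 0 ≤ psi ε A k x :=
  Metric.infDist_nonneg

theorem phi_lip (ε : ℝ) (A : Set Z) (k x y : Z) : |phi ε A k x - phi ε A k y| ≤ ‖x - y‖ := by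
  unfold phi
  split_ifs
  · exact R2a_lip _ x y
  · simp

theorem psi_lip (ε : ℝ) (A : Set Z) (k x y : Z) : |psi ε A k x - psi ε A k y| ≤ ‖x - y‖ :=
  R2a_lip _ x y

theorem phi_convex (ε : ℝ) (A : Set Z) (k : Z) : ConvexOn ℝ univ (phi ε A k) := by
  by_cases h : (farPts ε A k).Nonempty
  · have h1 : phi ε A k = fun x => Metric.infDist x (convexHull ℝ (farPts ε A k)) := by
      funext x
      unfold phi
      rw [if_pos h]
    rw [h1]
    exact R2a_convex _ (convex_convexHull ℝ _)
  · have h1 : phi ε A k = fun _ => (1 : ℝ) := by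
      funext x
      unfold phi
      rw [if_neg h]
    rw [h1]
    exact convexOn_const 1 convex_univ

theorem psi_convex (ε : ℝ) (A : Set Z) (k : Z) : ConvexOn ℝ univ (psi ε A k) :=
  R2a_convex _ (convex_convexHull ℝ _)

end Pool.Agent.DD
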