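import Pool.Agent.Lib.MP_dd9902_an.R1

set_option autoImplicit false

open scoped BigOperators
open Set Filter MeasureTheory

namespace Pool.Agent.DD

variable {Z : Type*} [NormedAddCommGroup Z] [NormedSpace ℝ Z]

theorem phi_le {ε : ℝ} {A : Set Z} (hA : ∀ z ∈ A, ‖z‖ ≤ 1) (k x : Z) : phi ε A k x ≤ 1 + ‖x‖ := by
  unfold phi
  split_ifs with h
  · obtain ⟨z, hz⟩ := h
    have h1 : Metric.infDist x (convexHull ℝ (farPts ε A k)) ≤ dist x z :=
      Metric.infDist_le_dist_of_mem (subset_convexHull ℝ _ hz)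
    have h2 : dist x z ≤ ‖x‖ + ‖z‖ := by rw [dist_eq_norm]; exact norm_sub_le x z
    have h3 := hA z hz.1
    linarith
  · have := norm_nonneg x
    linarith

private theorem R2b_self_near {ε : ℝ} (hε : 0 ≤ ε) {A : Set Z} {k : Z} (hk : k ∈ A) :
    k ∈ convexHull ℝ (nearPts ε A k) :=
  subset_convexHull ℝ _ ⟨hk, by simpa using hε⟩

theorem psi_le {ε : ℝ} (hε : 0 ≤ ε) {A : Set Z} (hA : ∀ z ∈ A, ‖z‖ ≤ 1) {k : Z} (hk : k ∈ A) (x : Z) :
    psi ε A k x ≤ 1 + ‖x‖ := by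
  unfold psi
  have h1 : Metric.infDist x (convexHull ℝ (nearPts ε A k)) ≤ dist x k :=
    Metric.infDist_le_dist_of_mem (R2b_self_near hε hk)
  have h2 : dist x k ≤ ‖x‖ + ‖k‖ := by rw [dist_eq_norm]; exact norm_sub_le x k
  have h3 := hA k hk
  linarith

theorem phi_self {ε η : ℝ} {A : Set Z} (hG : Good ε η A) {k : Z} (hk : k ∈ A) :
    min η 1 ≤ phi ε A k k := by
  unfold phi
  split_ifs with h
  · refine (min_le_left _ _).trans ?_
    rw [Metric.le_infDist (h.mono (subset_convexHull ℝ _))]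
    intro c hc
    rw [dist_eq_norm]
    exact good_dist hG hk hc
  · exact min_le_right _ _

theorem phi_pos_near {ε : ℝ} {A : Set Z} {k x : Z} (hx : x ∈ A) (h : 0 < phi ε A k x) : ‖k - x‖ ≤ ε := by
  by_contra hc
  push Not at hc
  have hf : x ∈ farPts ε A k := ⟨hx, hc⟩
  unfold phi at h
  rw [if_pos ⟨x, hf⟩, Metric.infDist_zero_of_mem (subset_convexHull ℝ _ hf)] at h
  exact lt_irrefl _ h

theorem psi_near {ε : ℝ} {A : Set Z} {k x : Z} (hx : x ∈ A) (h : ‖k - x‖ ≤ ε) : psi ε A k x = 0 :=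
  Metric.infDist_zero_of_mem (subset_convexHull ℝ _ ⟨hx, h⟩)

theorem psi_dist {ε : ℝ} (hε : 0 ≤ ε) {A : Set Z} {k : Z} (hk : k ∈ A) (y : Z) :
    ‖y - k‖ ≤ ε + psi ε A k y := by
  have hsub : convexHull ℝ (nearPts ε A k) ⊆ Metric.closedBall k ε := by
    refine convexHull_min ?_ (convex_closedBall k ε)
    intro z hz
    rw [Metric.mem_closedBall, dist_comm, dist_eq_norm]
    exact hz.2
  refine le_of_forall_pos_le_add (fun δ hδ => ?_)
  obtain ⟨c, hc, hyc⟩ := (Metric.infDist_lt_iff (x := y)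
    (r := Metric.infDist y (convexHull ℝ (nearPts ε A k)) + δ) ⟨k, R2b_self_near hε hk⟩).1 (by linarith)
  have h1 := hsub hc
  rw [Metric.mem_closedBall] at h1
  have h2 : ‖y - k‖ ≤ dist y c + dist c k := by
    rw [← dist_eq_norm]
    exact dist_triangle y c k
  unfold psi
  linarith

end Pool.Agent.DD
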