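import Pool.Agent.Lib.MP_dd9902_an.R2a
import Pool.Agent.Lib.MP_dd9902_an.R2b

set_option autoImplicit false

open scoped BigOperators
open Set Filter MeasureTheory

namespace Pool.Agent.DD

variable {Z : Type*} [NormedAddCommGroup Z] [NormedSpace ℝ Z]

private theorem R3a_thk_le {ε w : ℝ} (hε : 0 ≤ ε) (hw0 : 0 ≤ w) (hw1 : w ≤ 1) {A : Set Z}
    (hA : ∀ z ∈ A, ‖z‖ ≤ 1) {k : Z} (hk : k ∈ A) (x : Z) : thk ε w A k x ≤ 2 * (1 + ‖x‖) ^ 2 := by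
  unfold thk
  have h1 := phi_nonneg ε A k x
  have h2 := psi_nonneg ε A k x
  have h3 := phi_le (ε := ε) hA k x
  have h4 := psi_le hε hA hk x
  have h5 : phi ε A k x ^ 2 ≤ (1 + ‖x‖) ^ 2 := pow_le_pow_left₀ h1 h3 2
  have h6 : psi ε A k x ^ 2 ≤ (1 + ‖x‖) ^ 2 := pow_le_pow_left₀ h2 h4 2
  have h7 : w * psi ε A k x ^ 2 ≤ 1 * (1 + ‖x‖) ^ 2 :=
    mul_le_mul hw1 h6 (sq_nonneg _) zero_le_one
  linarith

theorem thk_le_theta {ε w : ℝ} (hε : 0 ≤ ε) (hw0 : 0 ≤ w) (hw1 : w ≤ 1) {A : Set Z}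
    (hA : ∀ z ∈ A, ‖z‖ ≤ 1) {k : Z} (hk : k ∈ A) (x : Z) : thk ε w A k x ≤ theta ε w A x := by
  refine le_csSup ⟨2 * (1 + ‖x‖) ^ 2, ?_⟩ ⟨k, hk, rfl⟩
  rintro _ ⟨k', hk', rfl⟩
  exact R3a_thk_le hε hw0 hw1 hA hk' x

theorem theta_nonneg {ε w : ℝ} (hw0 : 0 ≤ w) (A : Set Z) (x : Z) : 0 ≤ theta ε w A x := by
  refine Real.sSup_nonneg ?_
  rintro _ ⟨k, _, rfl⟩
  unfold thk
  positivity

theorem theta_le {ε w : ℝ} (hε : 0 ≤ ε) (hw0 : 0 ≤ w) (hw1 : w ≤ 1) {A : Set Z}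
    (hA : ∀ z ∈ A, ‖z‖ ≤ 1) (x : Z) : theta ε w A x ≤ 2 * (1 + ‖x‖) ^ 2 := by
  refine Real.sSup_le ?_ (by positivity)
  rintro _ ⟨k, hk, rfl⟩
  exact R3a_thk_le hε hw0 hw1 hA hk x

theorem thk_convex (ε : ℝ) {w : ℝ} (hw0 : 0 ≤ w) (A : Set Z) (k : Z) :
    ConvexOn ℝ univ (thk ε w A k) := by
  have h1 : ConvexOn ℝ univ (fun x => phi ε A k x ^ 2) :=
    (phi_convex ε A k).pow (fun x _ => phi_nonneg ε A k x) 2
  have h2 : ConvexOn ℝ univ (fun x => psi ε A k x ^ 2) :=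
    (psi_convex ε A k).pow (fun x _ => psi_nonneg ε A k x) 2
  have h3 := h1.add (h2.smul hw0)
  refine h3.congr ?_
  intro x _
  simp [thk, smul_eq_mul]

end Pool.Agent.DD
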