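import Pool.Agent.Lib.MP_dd9902_an.R3a

/-!
# Row dd-R3b : the function `theta`

Proofs. For `k ∈ A`: `0 ≤ thk ε w A k x ≤ (1 + w)(1 + ‖x‖)² ≤ 2 (1 + ‖x‖)²`, so the supremum is over a bounded set
(`A = ∅` gives `sSup ∅ = 0`).  Squares of nonnegative convex functions are convex (`ConvexOn.pow` or by hand), so each `thk` is convex;
a bounded supremum of convex functions is convex (`csSup_le`, `le_csSup`; treat `A = ∅` separately).
Lipschitz: `|φ(x)² - φ(y)²| ≤ |φ(x) - φ(y)| (φ(x) + φ(y)) ≤ ‖x-y‖ * 2(1+R)`, the same for `ψ`, `w ≤ 1`; then the supremum.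
-/

set_option autoImplicit false

open scoped BigOperators
open Set Filter MeasureTheory

namespace Pool.Agent.DD

variable {Z : Type*} [NormedAddCommGroup Z] [NormedSpace ℝ Z]

theorem theta_convex {ε w : ℝ} (hε : 0 ≤ ε) (hw0 : 0 ≤ w) (hw1 : w ≤ 1) {A : Set Z}
    (hA : ∀ z ∈ A, ‖z‖ ≤ 1) : ConvexOn ℝ univ (theta ε w A) := by
  refine ⟨convex_univ, ?_⟩
  intro x _ y _ a b ha hb hab
  rcases A.eq_empty_or_nonempty with hE | hne
  · subst hE
    simp [theta]
  · have hle : ∀ k ∈ A, thk ε w A k (a • x + b • y) ≤ a • theta ε w A x + b • theta ε w A y := by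
      intro k hk
      have h1 := (thk_convex ε hw0 A k).2 (mem_univ x) (mem_univ y) ha hb hab
      have h2 := thk_le_theta hε hw0 hw1 hA hk x
      have h3 := thk_le_theta hε hw0 hw1 hA hk y
      simp only [smul_eq_mul] at h1 ⊢
      nlinarith [mul_le_mul_of_nonneg_left h2 ha, mul_le_mul_of_nonneg_left h3 hb]
    unfold theta at hle ⊢
    apply csSup_le (hne.image _)
    rintro _ ⟨k, hk, rfl⟩
    exact hle k hk

theorem R3b_sq_sub {p q r s : ℝ} (hp : 0 ≤ p) (hq : 0 ≤ q) (hpr : p ≤ r) (hqr : q ≤ r)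
    (hs : |p - q| ≤ s) : p ^ 2 - q ^ 2 ≤ 2 * r * s := by
  have h1 : p ^ 2 - q ^ 2 = (p - q) * (p + q) := by ring
  have h2 : p - q ≤ s := le_trans (le_abs_self _) hs
  have hs0 : 0 ≤ s := le_trans (abs_nonneg _) hs
  rw [h1]
  calc (p - q) * (p + q) ≤ s * (p + q) := mul_le_mul_of_nonneg_right h2 (by linarith)
    _ ≤ s * (2 * r) := mul_le_mul_of_nonneg_left (by linarith) hs0
    _ = 2 * r * s := by ring

theorem R3b_one {ε w : ℝ} (hε : 0 ≤ ε) (hw0 : 0 ≤ w) (hw1 : w ≤ 1) {A : Set Z}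
    (hA : ∀ z ∈ A, ‖z‖ ≤ 1) {R : ℝ} {x y : Z} (hx : ‖x‖ ≤ R) (hy : ‖y‖ ≤ R) :
    theta ε w A x - theta ε w A y ≤ 4 * (1 + R) * ‖x - y‖ := by
  have hR : 0 ≤ R := le_trans (norm_nonneg x) hx
  rcases A.eq_empty_or_nonempty with hE | hne
  · subst hE
    have h0 : 0 ≤ 4 * (1 + R) * ‖x - y‖ := by positivity
    simpa [theta] using h0
  · have hle : ∀ k ∈ A, thk ε w A k x ≤ theta ε w A y + 4 * (1 + R) * ‖x - y‖ := by
      intro k hk
      have h2 := thk_le_theta hε hw0 hw1 hA hk y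
      have hp : phi ε A k x ^ 2 - phi ε A k y ^ 2 ≤ 2 * (1 + R) * ‖x - y‖ := by
        apply R3b_sq_sub (phi_nonneg ε A k x) (phi_nonneg ε A k y) _ _ (phi_lip ε A k x y)
        · exact le_trans (phi_le hA k x) (by linarith)
        · exact le_trans (phi_le hA k y) (by linarith)
      have hq : psi ε A k x ^ 2 - psi ε A k y ^ 2 ≤ 2 * (1 + R) * ‖x - y‖ := by
        apply R3b_sq_sub (psi_nonneg ε A k x) (psi_nonneg ε A k y) _ _ (psi_lip ε A k x y)
        · exact le_trans (psi_le hε hA hk x) (by linarith)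
        · exact le_trans (psi_le hε hA hk y) (by linarith)
      have h0 : 0 ≤ 2 * (1 + R) * ‖x - y‖ := by positivity
      have hq' : w * (psi ε A k x ^ 2 - psi ε A k y ^ 2) ≤ 2 * (1 + R) * ‖x - y‖ :=
        calc w * (psi ε A k x ^ 2 - psi ε A k y ^ 2) ≤ w * (2 * (1 + R) * ‖x - y‖) :=
              mul_le_mul_of_nonneg_left hq hw0
          _ ≤ 1 * (2 * (1 + R) * ‖x - y‖) := mul_le_mul_of_nonneg_right hw1 h0
          _ = 2 * (1 + R) * ‖x - y‖ := one_mul _
      have h3 : thk ε w A k x - thk ε w A k y ≤ 4 * (1 + R) * ‖x - y‖ := by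
        unfold thk
        nlinarith [hp, hq']
      linarith
    have h5 : theta ε w A x ≤ theta ε w A y + 4 * (1 + R) * ‖x - y‖ := by
      have h6 : sSup ((fun k => thk ε w A k x) '' A)
          ≤ theta ε w A y + 4 * (1 + R) * ‖x - y‖ := by
        apply csSup_le (hne.image _)
        rintro _ ⟨k, hk, rfl⟩
        exact hle k hk
      exact h6
    linarith

theorem theta_lip {ε w : ℝ} (hε : 0 ≤ ε) (hw0 : 0 ≤ w) (hw1 : w ≤ 1) {A : Set Z}
    (hA : ∀ z ∈ A, ‖z‖ ≤ 1) {R : ℝ} {x y : Z} (hx : ‖x‖ ≤ R) (hy : ‖y‖ ≤ R) :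
    |theta ε w A x - theta ε w A y| ≤ 4 * (1 + R) * ‖x - y‖ := by
  rw [abs_le]
  constructor
  · have h := R3b_one hε hw0 hw1 hA hy hx
    rw [norm_sub_rev] at h
    linarith
  · exact R3b_one hε hw0 hw1 hA hx hy

end Pool.Agent.DD
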