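import Pool.Agent.Lib.MP_dd9902_an.R3b

/-!
# Row dd-R4 : the local lemma (R) of the paper, section 2

Proof. Let `η' = min η 1`, `w = η'²/16` (so `0 ≤ w ≤ 1`), `θ = theta ε w A`, `d n = defect θ x (y n)`.
Fix `τ > 0` small.  For each `n` choose `k ∈ A` with `thk k (mid) ≥ θ(mid) - τ`, `mid = (1/2)•(x + y n)`
(`exists_lt_of_lt_csSup`, `A` is nonempty).  By convexity of `thk k` and `thk_le_theta`:
`θ(mid) - τ ≤ ½ thk k x + ½ thk k (y n) ≤ ½ thk k x + ½ θ(y n)`, hence `thk k x ≥ θ(x) - 2 (d n + τ)`, and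
`θ(x) ≥ thk x x ≥ phi x x ^ 2 ≥ η'²` (`phi_self`, `x ∈ A`).  `psi k x ≤ 1 + ‖x‖ ≤ 2`, so `w psi² ≤ 4 w = η'²/4`.
Hence `phi k x ^2 ≥ η'² (3/4) - 2 (d n + τ) > 0` if `d n + τ` is small, so `‖k - x‖ ≤ ε` (`phi_pos_near`) and `psi k x = 0` (`psi_near`).
The defect of `thk k` is `≤ d n + τ`: `½ thk k x + ½ thk k (y n) - thk k mid ≤ ½ θ x + ½ θ (y n) - θ mid + τ`.
It is the sum of the defect of `phi²` (`≥ 0`, convex) and `w *` the defect of `psi²`, and
`½ psi(x)² + ½ psi(y n)² - psi(mid)² ≥ ½ psi(y n)² - (½ psi(y n))² = ¼ psi(y n)²` (`psi k x = 0`, convexity of `psi`).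
So `w/4 * psi k (y n)² ≤ d n + τ`, and `‖y n - x‖ ≤ ‖y n - k‖ + ‖k - x‖ ≤ 2ε + psi k (y n)` (`psi_dist`).
Choose `τ` and `n` such that `d n + τ ≤ min(η'²/8, w δ²/4)`-like bounds hold.
-/

set_option autoImplicit false

open scoped BigOperators Topology
open Set Filter MeasureTheory

namespace Pool.Agent.DD

variable {Z : Type*} [NormedAddCommGroup Z] [NormedSpace ℝ Z]

theorem local_lemma {ε η : ℝ} (hε : 0 ≤ ε) (hη : 0 < η) {A : Set Z} (hA : ∀ z ∈ A, ‖z‖ ≤ 1)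
    (hG : Good ε η A) {x : Z} (hx : x ∈ A) {y : ℕ → Z}
    (hd : Tendsto (fun n => defect (theta ε ((min η 1) ^ 2 / 16) A) x (y n)) atTop (𝓝 0)) :
    ∀ δ > 0, ∀ᶠ n in atTop, ‖y n - x‖ ≤ 2 * ε + δ := by
  intro δ hδ
  set e : ℝ := min η 1 with he
  have he0 : 0 < e := lt_min hη one_pos
  have he1 : e ≤ 1 := min_le_right _ _
  set w : ℝ := e ^ 2 / 16 with hw
  have hw0 : 0 < w := by positivity
  have hw1 : w ≤ 1 := by
    have : e ^ 2 ≤ 1 := pow_le_one₀ he0.le he1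
    rw [hw]; linarith
  have hB1 : 0 < e ^ 2 / 4 := by positivity
  have hB2 : 0 < w * δ ^ 2 / 8 := by positivity
  have hB : 0 < min (e ^ 2 / 4) (w * δ ^ 2 / 8) := lt_min hB1 hB2
  set B : ℝ := min (e ^ 2 / 4) (w * δ ^ 2 / 8) with hBdef
  have hBle1 : B ≤ e ^ 2 / 4 := min_le_left _ _
  have hBle2 : B ≤ w * δ ^ 2 / 8 := min_le_right _ _
  filter_upwards [hd.eventually (gt_mem_nhds (half_pos hB))] with n hn
  set z : Z := (1 / 2 : ℝ) • (x + y n) with hz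
  have hdef : defect (theta ε w A) x (y n) =
      (1 / 2) * theta ε w A x + (1 / 2) * theta ε w A (y n) - theta ε w A z := rfl
  -- an almost optimal index
  have hlt : theta ε w A z - B / 2 < sSup ((fun k => thk ε w A k z) '' A) := by
    show theta ε w A z - B / 2 < theta ε w A z
    linarith
  obtain ⟨_, ⟨k, hk, rfl⟩, hkz⟩ := exists_lt_of_lt_csSup (Set.Nonempty.image _ ⟨x, hx⟩) hlt
  have hkz' : theta ε w A z - B / 2 < thk ε w A k z := hkz
  have hkx := thk_le_theta (w := w) hε hw0.le hw1 hA hk x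
  have hky := thk_le_theta (w := w) hε hw0.le hw1 hA hk (y n)
  have hxx := thk_le_theta (w := w) hε hw0.le hw1 hA hx x
  have hself : e ≤ phi ε A x x := phi_self hG hx
  have hthx : e ^ 2 ≤ theta ε w A x := by
    have h1 : e ^ 2 ≤ phi ε A x x ^ 2 := pow_le_pow_left₀ he0.le hself 2
    have h2 : 0 ≤ w * psi ε A x x ^ 2 := by positivity
    have h3 : thk ε w A x x = phi ε A x x ^ 2 + w * psi ε A x x ^ 2 := rfl
    linarith
  -- convexity
  have hmid : z = (1 / 2 : ℝ) • x + (1 / 2 : ℝ) • y n := by rw [hz, smul_add]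
  have hphi : phi ε A k z ≤ (1 / 2) * phi ε A k x + (1 / 2) * phi ε A k (y n) := by
    have := (phi_convex ε A k).2 (mem_univ x) (mem_univ (y n)) (by norm_num : (0 : ℝ) ≤ 1 / 2)
      (by norm_num : (0 : ℝ) ≤ 1 / 2) (by norm_num)
    rw [hmid]
    simpa [smul_eq_mul] using this
  have hpsi : psi ε A k z ≤ (1 / 2) * psi ε A k x + (1 / 2) * psi ε A k (y n) := by
    have := (psi_convex ε A k).2 (mem_univ x) (mem_univ (y n)) (by norm_num : (0 : ℝ) ≤ 1 / 2)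
      (by norm_num : (0 : ℝ) ≤ 1 / 2) (by norm_num)
    rw [hmid]
    simpa [smul_eq_mul] using this
  have p0 := phi_nonneg ε A k z
  have p1 := phi_nonneg ε A k x
  have p2 := phi_nonneg ε A k (y n)
  have q0 := psi_nonneg ε A k z
  have q1 := psi_nonneg ε A k x
  have q2 := psi_nonneg ε A k (y n)
  have tx : thk ε w A k x = phi ε A k x ^ 2 + w * psi ε A k x ^ 2 := rfl
  have ty : thk ε w A k (y n) = phi ε A k (y n) ^ 2 + w * psi ε A k (y n) ^ 2 := rfl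
  have tz : thk ε w A k z = phi ε A k z ^ 2 + w * psi ε A k z ^ 2 := rfl
  have hphi2 : phi ε A k z ^ 2 ≤ (1 / 2) * phi ε A k x ^ 2 + (1 / 2) * phi ε A k (y n) ^ 2 := by
    have h1 : phi ε A k z ^ 2 ≤ ((1 / 2) * phi ε A k x + (1 / 2) * phi ε A k (y n)) ^ 2 :=
      pow_le_pow_left₀ p0 hphi 2
    nlinarith [sq_nonneg (phi ε A k x - phi ε A k (y n))]
  have hpsi2 : psi ε A k z ^ 2 ≤ (1 / 2) * psi ε A k x ^ 2 + (1 / 2) * psi ε A k (y n) ^ 2 := by
    have h1 : psi ε A k z ^ 2 ≤ ((1 / 2) * psi ε A k x + (1 / 2) * psi ε A k (y n)) ^ 2 :=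
      pow_le_pow_left₀ q0 hpsi 2
    nlinarith [sq_nonneg (psi ε A k x - psi ε A k (y n))]
  have hwpsi2 := mul_le_mul_of_nonneg_left hpsi2 hw0.le
  -- the value at `x`
  have hkx2 : e ^ 2 / 2 < thk ε w A k x := by
    have h4 : thk ε w A k z ≤ (1 / 2) * thk ε w A k x + (1 / 2) * thk ε w A k (y n) := by
      rw [tx, ty, tz]; linarith
    linarith
  have hpx : psi ε A k x ≤ 2 := by
    have := psi_le hε hA hk x
    have := hA x hx
    linarith
  have hpx2 : w * psi ε A k x ^ 2 ≤ e ^ 2 / 4 := by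
    have h1 : psi ε A k x ^ 2 ≤ 2 ^ 2 := pow_le_pow_left₀ q1 hpx 2
    have h2 := mul_le_mul_of_nonneg_left h1 hw0.le
    have h3 : w * 2 ^ 2 = e ^ 2 / 4 := by rw [hw]; ring
    linarith
  have hphix : 0 < phi ε A k x := by
    rcases p1.lt_or_eq with h | h
    · exact h
    · exfalso
      rw [tx, ← h] at hkx2
      have : (0 : ℝ) ^ 2 = 0 := by norm_num
      rw [this] at hkx2
      linarith
  have hnear : ‖k - x‖ ≤ ε := phi_pos_near hx hphix
  have hpsi0 : psi ε A k x = 0 := psi_near hx hnear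
  -- the defect of `psi ^ 2`
  rw [hpsi0] at hpsi
  have hpz : psi ε A k z ^ 2 ≤ (1 / 4) * psi ε A k (y n) ^ 2 := by
    have h1 : psi ε A k z ^ 2 ≤ ((1 / 2) * 0 + (1 / 2) * psi ε A k (y n)) ^ 2 :=
      pow_le_pow_left₀ q0 hpsi 2
    calc psi ε A k z ^ 2 ≤ ((1 / 2) * 0 + (1 / 2) * psi ε A k (y n)) ^ 2 := h1
      _ = (1 / 4) * psi ε A k (y n) ^ 2 := by ring
  have hwpz := mul_le_mul_of_nonneg_left hpz hw0.le
  have hfin : w * psi ε A k (y n) ^ 2 < w * δ ^ 2 := by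
    rw [hpsi0] at tx
    have h5 : w * (0 : ℝ) ^ 2 = 0 := by ring
    have h6 : w * (1 / 4 * psi ε A k (y n) ^ 2) = (1 / 4) * (w * psi ε A k (y n) ^ 2) := by ring
    linarith
  have hfin2 : psi ε A k (y n) ^ 2 < δ ^ 2 := lt_of_mul_lt_mul_left hfin hw0.le
  have hfin3 : psi ε A k (y n) < δ := lt_of_pow_lt_pow_left₀ 2 hδ.le hfin2
  have hdist := psi_dist (A := A) hε hk (y n)
  have htri : ‖y n - x‖ ≤ ‖y n - k‖ + ‖k - x‖ := norm_sub_le_norm_sub_add_norm_sub _ _ _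
  linarith

end Pool.Agent.DD
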