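import Pool.Agent.Lib.MP_dd9902_an.Defs

/-!
# Row dd-T1a : elementary properties of `comp`

All by induction on `i` (generalising `t`).  `comp_split` : induction on `i`; for `i = j` take `y = t`.
`tree_osc` is (iv): `comp i t = comp (j+1) y` with `y ∈ A (j+1)` and `T.osc`.
-/

set_option autoImplicit false

open scoped BigOperators Topology
open Set Filter MeasureTheory

namespace Pool.Agent.DD

theorem comp_congr {Z : Type*} (ψ : ℕ → ℕ → Z → Z) {m m' : ℕ → ℕ} {S S' : ℕ → Bool} {i : ℕ}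
    (hm : ∀ l < i, m l = m' l) (hS : ∀ l < i, S l = S' l) (t : Z) :
    comp ψ m S i t = comp ψ m' S' i t := by
  induction i generalizing t with
  | zero => rfl
  | succ i ih =>
    have h1 : m i = m' i := hm i (Nat.lt_succ_self i)
    have h2 : S i = S' i := hS i (Nat.lt_succ_self i)
    simp only [comp]
    rw [h1, h2]
    exact ih (fun l hl => hm l (Nat.lt_succ_of_lt hl)) (fun l hl => hS l (Nat.lt_succ_of_lt hl)) _

variable {X : Type*} [NormedAddCommGroup X] [NormedSpace ℝ X] {ε : ℝ} {η : ℕ → ℝ} (T : Tree X ε η)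

theorem Tree.anti_le {i j : ℕ} (h : i ≤ j) : T.A j ⊆ T.A i := by
  induction j, h using Nat.le_induction with
  | base => exact Subset.rfl
  | succ j _ ih => exact (T.anti j).trans ih

theorem comp_split {m : ℕ → ℕ} (hm : ∀ i, m i ≤ T.n i) (S : ℕ → Bool) {i j : ℕ} (h : j ≤ i)
    {t : X →L[ℝ] ℝ} (ht : t ∈ T.A i) : ∃ y ∈ T.A j, comp T.ψ m S i t = comp T.ψ m S j y := by
  induction i, h using Nat.le_induction generalizing t with
  | base => exact ⟨t, ht, rfl⟩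
  | succ i _ ih =>
    simp only [comp]
    apply ih
    split_ifs
    · exact T.maps i (m i) t (hm i) ht
    · exact T.anti i ht

theorem comp_mem {m : ℕ → ℕ} (hm : ∀ i, m i ≤ T.n i) (S : ℕ → Bool) {i : ℕ}
    {t : X →L[ℝ] ℝ} (ht : t ∈ T.A i) : comp T.ψ m S i t ∈ T.A 0 := by
  obtain ⟨y, hy, h⟩ := comp_split T hm S (Nat.zero_le i) ht
  rw [h]
  exact hy

theorem comp_norm_le {m : ℕ → ℕ} (hm : ∀ i, m i ≤ T.n i) (S : ℕ → Bool) {i : ℕ}
    {t : X →L[ℝ] ℝ} (ht : t ∈ T.A i) : ‖comp T.ψ m S i t‖ ≤ 1 :=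
  T.ball 0 _ (comp_mem T hm S ht)

theorem abs_apply_le {g : X →L[ℝ] ℝ} (hg : ‖g‖ ≤ 1) {x : X} (hx : ‖x‖ ≤ 1) : |g x| ≤ 1 := by
  have h1 : ‖g x‖ ≤ ‖g‖ * ‖x‖ := g.le_opNorm x
  rw [← Real.norm_eq_abs]
  calc ‖g x‖ ≤ ‖g‖ * ‖x‖ := h1
    _ ≤ 1 * 1 := mul_le_mul hg hx (norm_nonneg _) zero_le_one
    _ = 1 := one_mul 1

theorem toN_le {n : ℕ → ℕ} (m : (i : ℕ) → Fin (n i + 1)) (i : ℕ) : toN m i ≤ n i := by
  unfold toN
  exact Nat.lt_succ_iff.mp (m i).isLt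

end Pool.Agent.DD
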