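import Mathlib

/-!
# Row dd-U1a : the claim of section 5

Proof. Let `γ > 0` with `γ ≤ coin.real (G j ∩ V)` for `U`-many `j` (so `γ ≤ 1`).  For `j ≥ N` the set `A = G j ∩ V` does not depend on the coordinate `j`,
so `coin_half` gives `coin.real (V ∩ G j ∩ {S | S j = b}) ≥ γ/2`; call this set `H j`.  Suppose the conclusion fails; `U` is an ultrafilter, so
`T = {i | ¬ Large U G (H i) ∧ N ≤ i ∧ γ/2 ≤ coin.real (H i)} ∈ U` (`U ≤ atTop`).  Put `γ' = γ²/16`.  For `i ∈ T`: `∀ᶠ j in U, coin.real (G j ∩ H i) < γ'`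
(`¬ Large` with `γ'`, `Ultrafilter.eventually_not`).  Let `M = ⌈4/γ⌉₊`.  Construct `i_1, .., i_M ∈ T` (induction on the length, distinct) with
`coin.real (H i_a ∩ H i_c) ≤ coin.real (G i_c ∩ H i_a) < γ'` for `a < c` (`U`-many choices at each step: finite intersection; `H i_c ⊆ G i_c`).
Bonferroni: `1 ≥ coin.real (⋃ H i_a) ≥ ∑ coin.real (H i_a) - ∑_{a<c} coin.real (H i_a ∩ H i_c) ≥ M γ/2 - M² γ'/2`.
With `4/γ ≤ M ≤ 5/γ`: `≥ 2 - 25/32 > 1`, contradiction.  (Bonferroni by induction: `μ (A ∪ B) = μ A + μ B - μ (A ∩ B)` and `μ((⋃ H i_a) ∩ H i_c) ≤ ∑ μ(H i_a ∩ H i_c)`.)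
-/

set_option autoImplicit false

open scoped BigOperators Topology
open Set Filter MeasureTheory

namespace Pool.Agent.DD

private theorem U1a_inter {Ω : Type*} [MeasurableSpace Ω] (μ : Measure Ω) [IsProbabilityMeasure μ]
    (H : ℕ → Set Ω) {β : ℝ} (k : ℕ) : ∀ n : ℕ, (∀ i < n, μ.real (H i ∩ H k) ≤ β) →
    μ.real ((⋃ i ∈ Finset.range n, H i) ∩ H k) ≤ n * β := by
  intro n
  induction n with
  | zero => intro _; simp
  | succ n ih =>
    intro h
    have h1 := ih (fun i hi => h i (Nat.lt_succ_of_lt hi))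
    have h2 := h n (Nat.lt_succ_self n)
    have h3 : (⋃ i ∈ Finset.range (n + 1), H i) ∩ H k ⊆
        ((⋃ i ∈ Finset.range n, H i) ∩ H k) ∪ (H n ∩ H k) := by
      intro x hx
      obtain ⟨hx1, hx2⟩ := hx
      simp only [Set.mem_iUnion, Finset.mem_range] at hx1
      obtain ⟨i, hi, hxi⟩ := hx1
      rcases Nat.lt_succ_iff_lt_or_eq.mp hi with h4 | h4
      · left
        refine ⟨?_, hx2⟩
        simp only [Set.mem_iUnion, Finset.mem_range]
        exact ⟨i, h4, hxi⟩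
      · right
        rw [h4] at hxi
        exact ⟨hxi, hx2⟩
    have h5 : μ.real ((⋃ i ∈ Finset.range (n + 1), H i) ∩ H k) ≤
        μ.real (((⋃ i ∈ Finset.range n, H i) ∩ H k) ∪ (H n ∩ H k)) :=
      measureReal_mono h3
    have h6 := measureReal_union_le (μ := μ) ((⋃ i ∈ Finset.range n, H i) ∩ H k) (H n ∩ H k)
    push_cast
    linarith

private theorem U1a_union {Ω : Type*} [MeasurableSpace Ω] (μ : Measure Ω) [IsProbabilityMeasure μ]
    (H : ℕ → Set Ω) (hH : ∀ i, MeasurableSet (H i)) {α β : ℝ} (hβ : 0 ≤ β) : ∀ M : ℕ,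
    (∀ i < M, α ≤ μ.real (H i)) → (∀ i j, i < j → j < M → μ.real (H i ∩ H j) ≤ β) →
    M * α - M ^ 2 / 2 * β ≤ μ.real (⋃ i ∈ Finset.range M, H i) := by
  intro M
  induction M with
  | zero => intro _ _; simp
  | succ n ih =>
    intro h1 h2
    have h3 := ih (fun i hi => h1 i (Nat.lt_succ_of_lt hi))
      (fun i j hij hj => h2 i j hij (Nat.lt_succ_of_lt hj))
    have h4 := h1 n (Nat.lt_succ_self n)
    have h5 := U1a_inter μ H (β := β) n n (fun i hi => h2 i n hi (Nat.lt_succ_self n))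
    have h6 : (⋃ i ∈ Finset.range (n + 1), H i) = (⋃ i ∈ Finset.range n, H i) ∪ H n := by
      ext x
      simp only [Set.mem_iUnion, Finset.mem_range, Set.mem_union]
      constructor
      · rintro ⟨i, hi, hx⟩
        rcases Nat.lt_succ_iff_lt_or_eq.mp hi with h | h
        · exact Or.inl ⟨i, h, hx⟩
        · right
          rw [h] at hx
          exact hx
      · rintro (⟨i, hi, hx⟩ | hx)
        · exact ⟨i, Nat.lt_succ_of_lt hi, hx⟩
        · exact ⟨n, Nat.lt_succ_self n, hx⟩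
    have h7 := measureReal_union_add_inter (μ := μ) (s := ⋃ i ∈ Finset.range n, H i) (hH n)
      (measure_ne_top μ _) (measure_ne_top μ _)
    rw [h6]
    push_cast
    nlinarith

/-- Bonferroni inequality for a list of sets, abstract form. -/
theorem bonferroni {Ω : Type*} [MeasurableSpace Ω] (μ : Measure Ω) [IsProbabilityMeasure μ] (M : ℕ)
    (H : ℕ → Set Ω) (hH : ∀ i, MeasurableSet (H i)) {α β : ℝ} (hβ : 0 ≤ β)
    (h1 : ∀ i < M, α ≤ μ.real (H i)) (h2 : ∀ i j, i < j → j < M → μ.real (H i ∩ H j) ≤ β) :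
    M * α - M ^ 2 / 2 * β ≤ 1 :=
  le_trans (U1a_union μ H hH hβ M h1 h2) measureReal_le_one

end Pool.Agent.DD
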