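import Pool.Agent.Lib.MP_dd9902_an.U1a
import Pool.Agent.Lib.MP_dd9902_an.P1c
import Pool.Agent.Lib.MP_dd9902_an.P4

/-!
# Row dd-U1b : the claim of section 5

Proof. Let `γ > 0` with `γ ≤ coin.real (G j ∩ V)` for `U`-many `j` (so `γ ≤ 1`).  For `j ≥ N` the set `A = G j ∩ V` does not depend on the coordinate `j`,
so `coin_half` gives `coin.real (V ∩ G j ∩ {S | S j = b}) ≥ γ/2`; call this set `H j`.  Suppose the conclusion fails; `U` is an ultrafilter, so
`T = {i | ¬ Large U G (H i) ∧ N ≤ i ∧ γ/2 ≤ coin.real (H i)} ∈ U` (`U ≤ atTop`).  Put `γ' = γ²/16`.  For `i ∈ T`: `∀ᶠ j in U, coin.real (G j ∩ H i) < γ'`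
(`¬ Large` with `γ'`, `Ultrafilter.eventually_not`).  Let `M = ⌈4/γ⌉₊`.  Construct `i_1, .., i_M ∈ T` (induction on the length, distinct) with
`coin.real (H i_a ∩ H i_c) ≤ coin.real (G i_c ∩ H i_a) < γ'` for `a < c` (`U`-many choices at each step: finite intersection; `H i_c ⊆ G i_c`).
Bonferroni: `1 ≥ coin.real (⋃ H i_a) ≥ ∑ coin.real (H i_a) - ∑_{a<c} coin.real (H i_a ∩ H i_c) ≥ M γ/2 - M² γ'/2`.
With `4/γ ≤ M ≤ 5/γ`: `≥ 2 - 25/32 > 1`, contradiction.  (Bonferroni by induction: `μ (A ∪ B) = μ A + μ B - μ (A ∩ B)` and `μ((⋃ H i_a) ∩ H i_c) ≤ ∑ μ(H i_a ∩ H i_c)`.)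
-/

set_option autoImplicit false

open scoped BigOperators Topology
open Set Filter MeasureTheory

namespace Pool.Agent.DD

/-- `V` is large: the sets `G j` have a positive proportion of `V` along the ultrafilter. -/
def Large (U : Ultrafilter ℕ) (G : ℕ → Set (ℕ → Bool)) (V : Set (ℕ → Bool)) : Prop :=
  ∃ γ : ℝ, 0 < γ ∧ ∀ᶠ j in (U : Filter ℕ), γ ≤ coin.real (G j ∩ V)

theorem large_step {U : Ultrafilter ℕ} (hU : (U : Filter ℕ) ≤ atTop) {G : ℕ → Set (ℕ → Bool)}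
    (hG : ∀ (j : ℕ) (S S' : ℕ → Bool), (∀ l < j, S l = S' l) → (S ∈ G j ↔ S' ∈ G j))
    {V : Set (ℕ → Bool)} {N : ℕ} (hV : ∀ S S' : ℕ → Bool, (∀ l < N, S l = S' l) → (S ∈ V ↔ S' ∈ V))
    (hL : Large U G V) (b : Bool) :
    ∀ᶠ i in (U : Filter ℕ), Large U G (V ∩ G i ∩ {S | S i = b}) := by
  classical
  obtain ⟨γ, hγ, hγU⟩ := hL
  have hVm : MeasurableSet V := measurableSet_of_prefix V N hV
  have hGm : ∀ j, MeasurableSet (G j) := fun j => measurableSet_of_prefix (G j) j (hG j)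
  have hCm : ∀ j, MeasurableSet {S : ℕ → Bool | S j = b} := by
    intro j
    have h : MeasurableSet ((fun S : ℕ → Bool => S j) ⁻¹' {b}) :=
      (measurable_pi_apply j) (measurableSet_singleton b)
    exact h
  have hγ1 : γ ≤ 1 := by
    obtain ⟨j, hj⟩ := hγU.exists
    exact hj.trans (measureReal_le_one)
  by_contra hcon
  rw [← Ultrafilter.eventually_not] at hcon
  have hN : ∀ᶠ i in (U : Filter ℕ), N ≤ i := hU (eventually_ge_atTop N)
  set H : ℕ → Set (ℕ → Bool) := fun i => V ∩ G i ∩ {S | S i = b} with hH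
  have hHm : ∀ i, MeasurableSet (H i) := fun i => (hVm.inter (hGm i)).inter (hCm i)
  have hhalf : ∀ i, N ≤ i → γ ≤ coin.real (G i ∩ V) → γ / 2 ≤ coin.real (H i) := by
    intro i hi hgi
    have h1 := coin_half (A := V ∩ G i) (hVm.inter (hGm i)) (j := i) (by
      intro S b'
      have h2 : ∀ l < i, Function.update S i b' l = S l := fun l hl =>
        Function.update_of_ne (ne_of_lt hl) _ _
      constructor
      · rintro ⟨h3, h4⟩
        exact ⟨(hV _ _ (fun l hl => h2 l (lt_of_lt_of_le hl hi))).mp h3, (hG i _ _ h2).mp h4⟩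
      · rintro ⟨h3, h4⟩
        exact ⟨(hV _ _ (fun l hl => h2 l (lt_of_lt_of_le hl hi))).mpr h3, (hG i _ _ h2).mpr h4⟩) b
    rw [inter_comm] at hgi
    show γ / 2 ≤ coin.real (V ∩ G i ∩ {S | S i = b})
    rw [h1]
    linarith
  have hT : ∀ᶠ i in (U : Filter ℕ), (¬ Large U G (H i)) ∧ γ / 2 ≤ coin.real (H i) := by
    filter_upwards [hcon, hN, hγU] with i h1 h2 h3
    exact ⟨h1, hhalf i h2 h3⟩
  obtain ⟨f, hf1, hf2⟩ := exists_seq_of_forall_finset_exists
    (fun i : ℕ => (¬ Large U G (H i)) ∧ γ / 2 ≤ coin.real (H i))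
    (fun x y : ℕ => coin.real (G y ∩ H x) < γ ^ 2 / 16) (by
      intro s hs
      have h1 : ∀ᶠ j in (U : Filter ℕ), ∀ x ∈ s, coin.real (G j ∩ H x) < γ ^ 2 / 16 := by
        rw [Filter.eventually_all_finset]
        intro x hx
        have h2 := (hs x hx).1
        have h3 : ¬ ∀ᶠ j in (U : Filter ℕ), γ ^ 2 / 16 ≤ coin.real (G j ∩ H x) := by
          intro h4
          exact h2 ⟨γ ^ 2 / 16, by positivity, h4⟩
        rw [← Ultrafilter.eventually_not] at h3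
        filter_upwards [h3] with j hj
        exact not_le.mp hj
      obtain ⟨y, hy1, hy2⟩ := (hT.and h1).exists
      exact ⟨y, hy1, hy2⟩)
  have hM1 : 4 / γ ≤ (⌈4 / γ⌉₊ : ℝ) := Nat.le_ceil _
  have hM2 : (⌈4 / γ⌉₊ : ℝ) < 4 / γ + 1 := Nat.ceil_lt_add_one (by positivity)
  have hB := bonferroni coin ⌈4 / γ⌉₊ (fun i => H (f i)) (fun i => hHm _)
    (α := γ / 2) (β := γ ^ 2 / 16) (by positivity) (fun i _ => (hf1 i).2) (by
      intro i j hij _
      refine le_trans (measureReal_mono ?_) (hf2 i j hij).le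
      rintro S ⟨h1, h2⟩
      exact ⟨h2.1.2, h1⟩)
  generalize hMdef : (⌈4 / γ⌉₊ : ℝ) = M at hM1 hM2 hB
  have h1 : 4 ≤ M * γ := by
    have := mul_le_mul_of_nonneg_right hM1 hγ.le
    rwa [div_mul_cancel₀ _ hγ.ne'] at this
  have h2 : M * γ ≤ 5 := by
    have := mul_le_mul_of_nonneg_right hM2.le hγ.le
    rw [add_mul, div_mul_cancel₀ _ hγ.ne', one_mul] at this
    linarith
  have h3 : M * (γ / 2) - M ^ 2 / 2 * (γ ^ 2 / 16) = (M * γ) / 2 - (M * γ) ^ 2 / 32 := by ring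
  rw [h3] at hB
  nlinarith

end Pool.Agent.DD
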